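import Pool.Agent.Run7.h42.LP.KerC
import Pool.Agent.N748.MG.LLT
import Pool.Agent.N748.MJ.LLT2

set_option autoImplicit false

/-!
# The landscape of zeta at an exact level (helper42): a local limit theorem with marks
-/

namespace Run7.h42.LB

open Finset Filter MeasureTheory Topology Complex
open Run7.h42.LP (cf ee ee_norm ee_add ee_cont2 cf_norm)

variable {m : ℕ}

/-- the hypotheses -/
structure LBH (i : Fin m) (Z : Set (Fin m → ℝ)) (ν : ℝ → Measure (Fin m → ℝ)) (Λ : ℝ → ℝ)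
    (Ψ : (Fin m → ℝ) → ℝ → ℂ) : Prop where
  fin : ∀ᶠ T in atTop, IsFiniteMeasure (ν T)
  tL : Tendsto Λ atTop atTop
  Z0 : (0 : Fin m → ℝ) ∈ Z
  Zn : ∀ η ∈ Z, -η ∈ Z
  ct : ∀ η ∈ Z, Continuous (Ψ η)
  one : Ψ 0 0 = 1
  ch : ∀ η ∈ Z, ∀ R : ℝ, 0 < R → ∀ ε : ℝ, 0 < ε → ∀ᶠ T in atTop, ∀ ξ : ℝ, |ξ| ≤ R →
    ‖cf (ν T) (Pi.single i ξ + η) - Ψ η ξ * Real.exp (-(ξ ^ 2 * Λ T / 4))‖ ≤ ε * Real.exp (-(ξ ^ 2 * Λ T / 4))

variable {i : Fin m} {Z : Set (Fin m → ℝ)} {ν : ℝ → Measure (Fin m → ℝ)} {Λ : ℝ → ℝ} {Ψ : (Fin m → ℝ) → ℝ → ℂ}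

lemma LBH.lim0 (H : LBH i Z ν Λ Ψ) {η : Fin m → ℝ} (hη : η ∈ Z) : Tendsto (fun T => cf (ν T) η) atTop (𝓝 (Ψ η 0)) := by
  rw [Metric.tendsto_nhds]
  intro ε hε
  filter_upwards [H.ch η hη 1 one_pos (ε / 2) (by positivity)] with T hT
  have h1 := hT 0 (by simp)
  have e1 : (Pi.single i (0:ℝ) + η : Fin m → ℝ) = η := by simp
  rw [e1] at h1
  simp only [ne_eq, OfNat.ofNat_ne_zero, not_false_eq_true, zero_pow, zero_mul, zero_div, neg_zero, Real.exp_zero,
    Complex.ofReal_one, mul_one] at h1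
  rw [dist_eq_norm]
  linarith

lemma cf_zero (κ : Measure (Fin m → ℝ)) : cf κ 0 = ((κ.real Set.univ : ℝ) : ℂ) := by
  unfold cf ee
  simp [Measure.real]

lemma cf_neg (κ : Measure (Fin m → ℝ)) (η : Fin m → ℝ) : cf κ (-η) = (starRingEnd ℂ) (cf κ η) := by
  unfold cf
  rw [← integral_conj]
  refine integral_congr_ae (Eventually.of_forall fun x => ?_)
  simp only
  unfold ee
  rw [← Complex.exp_conj, map_mul, Complex.conj_ofReal, Complex.conj_I]
  congr 1
  push_cast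
  simp [Finset.sum_neg_distrib]

lemma LBH.le_one (H : LBH i Z ν Λ Ψ) {η : Fin m → ℝ} (hη : η ∈ Z) : ‖Ψ η 0‖ ≤ 1 := by
  have h1 := (H.lim0 hη).norm
  have h2 := (H.lim0 H.Z0).norm
  rw [H.one, norm_one] at h2
  refine le_of_tendsto_of_tendsto h1 h2 ?_
  filter_upwards [H.fin] with T hT
  rw [cf_zero, Complex.norm_real, Real.norm_of_nonneg measureReal_nonneg]
  exact cf_norm _ _

lemma LBH.conj (H : LBH i Z ν Λ Ψ) {η : Fin m → ℝ} (hη : η ∈ Z) : Ψ (-η) 0 = (starRingEnd ℂ) (Ψ η 0) := by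
  have h1 := H.lim0 (H.Zn η hη)
  have h2 := (Complex.continuous_conj.tendsto _).comp (H.lim0 hη)
  refine tendsto_nhds_unique h1 (h2.congr fun T => ?_)
  simp only [Function.comp_apply]
  rw [cf_neg]

/-- the weight -/
noncomputable def wt (η : Fin m → ℝ) (φ : ℝ) (x : Fin m → ℝ) : ℝ := 2 + Real.cos (∑ j, η j * x j + φ)

lemma wt_ge (η : Fin m → ℝ) (φ : ℝ) (x : Fin m → ℝ) : 1 ≤ wt η φ x := by
  unfold wt
  linarith [Real.neg_one_le_cos (∑ j, η j * x j + φ)]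

lemma wt_le (η : Fin m → ℝ) (φ : ℝ) (x : Fin m → ℝ) : wt η φ x ≤ 3 := by
  unfold wt
  linarith [Real.cos_le_one (∑ j, η j * x j + φ)]

lemma wt_cont (η : Fin m → ℝ) (φ : ℝ) : Continuous (wt η φ) := by
  unfold wt
  fun_prop

lemma wt_ee (η : Fin m → ℝ) (φ : ℝ) (x : Fin m → ℝ) :
    ((wt η φ x : ℝ) : ℂ) = 2 + cexp (φ * I) / 2 * ee η x + cexp (-(φ * I)) / 2 * ee (-η) x := by
  unfold wt ee
  rw [Complex.ofReal_add, Complex.ofReal_cos, Complex.cos]
  have e1 : cexp (((∑ j, η j * x j + φ : ℝ) : ℂ) * I) = cexp (φ * I) * cexp (((∑ j, η j * x j : ℝ) : ℂ) * I) := by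
    rw [← Complex.exp_add]
    congr 1
    push_cast
    ring
  have e2 : cexp (-((∑ j, η j * x j + φ : ℝ) : ℂ) * I) =
      cexp (-(φ * I)) * cexp (((∑ j, (-η) j * x j : ℝ) : ℂ) * I) := by
    rw [← Complex.exp_add]
    congr 1
    push_cast
    simp only [Pi.neg_apply, neg_mul, Finset.sum_neg_distrib, Complex.ofReal_neg]
    ring
  rw [e1, e2]
  push_cast
  ring

/-- the weighted law of the coordinate `i` -/
noncomputable def nw (i : Fin m) (κ : Measure (Fin m → ℝ)) (η : Fin m → ℝ) (φ c : ℝ) : Measure ℝ :=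
  (κ.withDensity (fun x => ENNReal.ofReal (wt η φ x / c))).map (fun x => x i)

lemma nw_int {G : Type*} [NormedAddCommGroup G] [NormedSpace ℝ G] (κ : Measure (Fin m → ℝ)) (η : Fin m → ℝ)
    (φ : ℝ) {c : ℝ} (hc : 0 < c) {f : ℝ → G} (hf : StronglyMeasurable f) :
    ∫ y, f y ∂(nw i κ η φ c) = ∫ x, (wt η φ x / c) • f (x i) ∂κ := by
  unfold nw
  rw [integral_map (measurable_pi_apply i).aemeasurable hf.aestronglyMeasurable]
  have h2 : (fun x => ENNReal.ofReal (wt η φ x / c)) =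
      fun x => (((wt η φ x / c).toNNReal : NNReal) : ENNReal) := rfl
  have hm : Measurable fun x => wt η φ x / c := (wt_cont η φ).measurable.div_const c
  rw [h2, integral_withDensity_eq_integral_smul hm.real_toNNReal]
  refine integral_congr_ae (Eventually.of_forall fun x => ?_)
  show (wt η φ x / c).toNNReal • f (x i) = (wt η φ x / c) • f (x i)
  rw [NNReal.smul_def, Real.coe_toNNReal _ (div_nonneg (by linarith [wt_ge η φ x]) hc.le)]

lemma nw_fin (κ : Measure (Fin m → ℝ)) [IsFiniteMeasure κ] (η : Fin m → ℝ) (φ : ℝ) {c : ℝ} (hc : 0 < c) :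
    IsFiniteMeasure (nw i κ η φ c) := by
  have h1 : Integrable (fun x => wt η φ x / c) κ := by
    refine Integrable.of_bound (C := 3 / c) ((wt_cont η φ).div_const c).aestronglyMeasurable
      (Eventually.of_forall fun x => ?_)
    rw [Real.norm_of_nonneg (div_nonneg (by linarith [wt_ge η φ x]) hc.le)]
    exact div_le_div_of_nonneg_right (wt_le η φ x) hc.le
  have h4 : IsFiniteMeasure (κ.withDensity (fun x => ENNReal.ofReal (wt η φ x / c))) :=
    isFiniteMeasure_withDensity_ofReal h1.2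
  unfold nw
  infer_instance

lemma ee_int (κ : Measure (Fin m → ℝ)) [IsFiniteMeasure κ] (ξ : Fin m → ℝ) : Integrable (ee ξ) κ := by
  refine Integrable.of_bound (C := 1) (ee_cont2 ξ).aestronglyMeasurable (Eventually.of_forall fun x => ?_)
  rw [ee_norm]

lemma ee_single (ξ : ℝ) (x : Fin m → ℝ) : ee (Pi.single i ξ) x = cexp (ξ * (x i) * I) := by
  unfold ee
  congr 2
  rw [← Complex.ofReal_mul]
  congr 1
  rw [Finset.sum_eq_single i]
  · rw [Pi.single_eq_same]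
  · intro j _ hj
    rw [Pi.single_eq_of_ne hj, zero_mul]
  · intro h
    exact absurd (Finset.mem_univ i) h

lemma nw_cf (κ : Measure (Fin m → ℝ)) [IsFiniteMeasure κ] (η : Fin m → ℝ) (φ : ℝ) {c : ℝ} (hc : 0 < c) (ξ : ℝ) :
    ∫ y, cexp (ξ * y * I) ∂(nw i κ η φ c) =
      (2 * cf κ (Pi.single i ξ + 0) + cexp (φ * I) / 2 * cf κ (Pi.single i ξ + η) +
        cexp (-(φ * I)) / 2 * cf κ (Pi.single i ξ + -η)) / c := by
  have hsm : StronglyMeasurable fun y : ℝ => cexp (ξ * y * I) := by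
    have : Continuous fun y : ℝ => cexp (ξ * y * I) := by fun_prop
    exact this.stronglyMeasurable
  rw [nw_int κ η φ hc hsm]
  have e1 : ∀ x : Fin m → ℝ, (wt η φ x / c) • cexp (ξ * (x i) * I) =
      (2 * ee (Pi.single i ξ + 0) x + cexp (φ * I) / 2 * ee (Pi.single i ξ + η) x +
        cexp (-(φ * I)) / 2 * ee (Pi.single i ξ + -η) x) / c := by
    intro x
    rw [Complex.real_smul, Complex.ofReal_div, wt_ee, ee_add, ee_add, ee_add, ← ee_single]
    have e0 : ee (0 : Fin m → ℝ) x = 1 := by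
      unfold ee
      simp
    rw [e0]
    ring
  simp_rw [e1]
  unfold cf
  rw [integral_div, integral_add, integral_add, integral_const_mul, integral_const_mul, integral_const_mul]
  · exact (ee_int κ _).const_mul _
  · exact (ee_int κ _).const_mul _
  · exact ((ee_int κ _).const_mul _).add ((ee_int κ _).const_mul _)
  · exact (ee_int κ _).const_mul _

/-- the local limit theorem with a weight -/
theorem wgt (H : LBH i Z ν Λ Ψ) {η : Fin m → ℝ} (hη : η ∈ Z) (φ : ℝ) (h : ℝ → ℝ) (S : Finset ℝ) (hh : Measurable h)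
    (hhc : ∀ x, x ∉ S → ContinuousAt h x) {C : ℝ} (hC : ∀ x, |h x| * (1 + x ^ 2) ≤ C) :
    Tendsto (fun T => Real.sqrt (Real.pi * Λ T) * ∫ x, wt η φ x * h (x i) ∂(ν T)) atTop
      (𝓝 ((2 + (cexp (φ * I) * Ψ η 0).re) * ∫ x, h x)) := by
  set c : ℝ := 2 + (cexp (φ * I) * Ψ η 0).re with hcd
  have hn1 : ‖cexp (φ * I) * Ψ η 0‖ ≤ 1 := by
    rw [norm_mul, Complex.norm_exp_ofReal_mul_I, one_mul]
    exact H.le_one hη
  have hc : 0 < c := by
    have := (abs_le.1 (Complex.abs_re_le_norm (cexp (φ * I) * Ψ η 0))).1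
    linarith
  have hc1 : 1 ≤ c := by
    have := (abs_le.1 (Complex.abs_re_le_norm (cexp (φ * I) * Ψ η 0))).1
    linarith
  have hcc : (c : ℂ) ≠ 0 := by exact_mod_cast hc.ne'
  set g : ℝ → ℂ := fun ξ => (2 * Ψ 0 ξ + cexp (φ * I) / 2 * Ψ η ξ + cexp (-(φ * I)) / 2 * Ψ (-η) ξ) / c with hg
  have hgc : Continuous g := by
    have c1 := H.ct 0 H.Z0
    have c2 := H.ct η hη
    have c3 := H.ct (-η) (H.Zn η hη)
    rw [hg]
    fun_prop
  have hg0 : g 0 = 1 := by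
    rw [hg]
    simp only
    rw [H.one, H.conj hη, mul_one]
    have e1 : cexp (-(φ * I)) / 2 * (starRingEnd ℂ) (Ψ η 0) = (starRingEnd ℂ) (cexp (φ * I) * Ψ η 0) / 2 := by
      rw [map_mul, ← Complex.exp_conj, map_mul, Complex.conj_ofReal, Complex.conj_I]
      ring
    have e2 : cexp (φ * I) / 2 * Ψ η 0 + (starRingEnd ℂ) (cexp (φ * I) * Ψ η 0) / 2 =
        (((cexp (φ * I) * Ψ η 0).re : ℝ) : ℂ) := by
      have h7 := Complex.add_conj (cexp (φ * I) * Ψ η 0)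
      rw [Complex.ofReal_mul, Complex.ofReal_ofNat] at h7
      linear_combination h7 / 2
    rw [e1, add_assoc, e2, div_eq_one_iff_eq hcc, hcd]
    push_cast
    ring
  have h1 := Pool.Agent.N748.MG.LLT.main (fun T => nw i (ν T) η φ c) Λ g
    (by
      filter_upwards [H.fin] with T hT
      exact nw_fin (ν T) η φ hc) H.tL hgc hg0
    (by
      intro R hR ε hε
      filter_upwards [H.fin, H.ch 0 H.Z0 R hR (ε / 3) (by positivity), H.ch η hη R hR (ε / 3) (by positivity),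
        H.ch (-η) (H.Zn η hη) R hR (ε / 3) (by positivity)] with T hT a0 a1 a2 ξ hξ
      have b0 := a0 ξ hξ
      have b1 := a1 ξ hξ
      have b2 := a2 ξ hξ
      rw [nw_cf (ν T) η φ hc ξ, hg]
      simp only
      set E : ℝ := Real.exp (-(ξ ^ 2 * Λ T / 4)) with hE
      have hE0 : 0 < E := Real.exp_pos _
      have e3 : (2 * cf (ν T) (Pi.single i ξ + 0) + cexp (φ * I) / 2 * cf (ν T) (Pi.single i ξ + η) +
          cexp (-(φ * I)) / 2 * cf (ν T) (Pi.single i ξ + -η)) / c -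
          (2 * Ψ 0 ξ + cexp (φ * I) / 2 * Ψ η ξ + cexp (-(φ * I)) / 2 * Ψ (-η) ξ) / c * E =
          (2 * (cf (ν T) (Pi.single i ξ + 0) - Ψ 0 ξ * E) + cexp (φ * I) / 2 * (cf (ν T) (Pi.single i ξ + η) - Ψ η ξ * E) +
          cexp (-(φ * I)) / 2 * (cf (ν T) (Pi.single i ξ + -η) - Ψ (-η) ξ * E)) / c := by ring
      rw [e3, norm_div, Complex.norm_real, Real.norm_of_nonneg hc.le, div_le_iff₀ hc]
      have n1 : ‖cexp (φ * I) / 2‖ = 1 / 2 := by
        rw [norm_div, Complex.norm_exp_ofReal_mul_I]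
        norm_num
      have n2 : ‖cexp (-(φ * I)) / 2‖ = 1 / 2 := by
        rw [show -((φ : ℂ) * I) = ((-φ : ℝ) : ℂ) * I by push_cast; ring, norm_div, Complex.norm_exp_ofReal_mul_I]
        norm_num
      have n3 := norm_add₃_le (a := 2 * (cf (ν T) (Pi.single i ξ + 0) - Ψ 0 ξ * E))
        (b := cexp (φ * I) / 2 * (cf (ν T) (Pi.single i ξ + η) - Ψ η ξ * E))
        (c := cexp (-(φ * I)) / 2 * (cf (ν T) (Pi.single i ξ + -η) - Ψ (-η) ξ * E))
      rw [norm_mul, norm_mul, norm_mul, n1, n2] at n3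
      have n4 : ‖(2:ℂ)‖ = 2 := by norm_num
      rw [n4] at n3
      have hp : 0 < ε * E := by positivity
      nlinarith)
    h S hh hhc ⟨C, hC⟩
  have h2 := h1.const_mul c
  refine h2.congr fun T => ?_
  rw [nw_int (ν T) η φ hc hh.stronglyMeasurable]
  have e4 : ∀ x : Fin m → ℝ, (wt η φ x / c) • h (x i) = c⁻¹ * (wt η φ x * h (x i)) := fun x => by
    rw [smul_eq_mul]
    ring
  simp_rw [e4]
  rw [integral_const_mul]
  field_simp

lemma h_int {h : ℝ → ℝ} (hh : Measurable h) {C : ℝ} (hC : ∀ x, |h x| * (1 + x ^ 2) ≤ C) (κ : Measure (Fin m → ℝ))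
    [IsFiniteMeasure κ] {f : (Fin m → ℝ) → ℝ} (hf : Measurable f) {B : ℝ} (hB : ∀ x, |f x| ≤ B) :
    Integrable (fun x => f x * h (x i)) κ := by
  have hB0 : 0 ≤ B := (abs_nonneg _).trans (hB 0)
  refine Integrable.of_bound (C := B * C) (hf.mul (hh.comp (measurable_pi_apply i))).aestronglyMeasurable
    (Eventually.of_forall fun x => ?_)
  rw [norm_mul, Real.norm_eq_abs, Real.norm_eq_abs]
  refine mul_le_mul (hB x) ?_ (abs_nonneg _) hB0
  have h1 := hC (x i)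
  nlinarith [abs_nonneg (h (x i)), sq_nonneg (x i)]

/-- the local limit theorem with a character -/
theorem chr (H : LBH i Z ν Λ Ψ) {η : Fin m → ℝ} (hη : η ∈ Z) (h : ℝ → ℝ) (S : Finset ℝ) (hh : Measurable h)
    (hhc : ∀ x, x ∉ S → ContinuousAt h x) {C : ℝ} (hC : ∀ x, |h x| * (1 + x ^ 2) ≤ C) :
    Tendsto (fun T => ((Real.sqrt (Real.pi * Λ T) : ℝ) : ℂ) * ∫ x, ((h (x i) : ℝ) : ℂ) * ee η x ∂(ν T)) atTop
      (𝓝 (Ψ η 0 * ((∫ x, h x : ℝ) : ℂ))) := by
  have w0 := wgt H H.Z0 0 h S hh hhc hC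
  have w1 := wgt H hη 0 h S hh hhc hC
  have w2 := wgt H hη (-(Real.pi / 2)) h S hh hhc hC
  rw [H.one] at w0
  have v0 : (cexp ((0:ℝ) * I) * 1).re = 1 := by simp
  have v1 : (cexp ((0:ℝ) * I) * Ψ η 0).re = (Ψ η 0).re := by simp
  have v2 : (cexp ((-(Real.pi / 2) : ℝ) * I) * Ψ η 0).re = (Ψ η 0).im := by
    have e : cexp ((-(Real.pi / 2) : ℝ) * I) = -I := by
      rw [Complex.exp_mul_I, ← Complex.ofReal_cos, ← Complex.ofReal_sin, Real.cos_neg, Real.sin_neg,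
        Real.cos_pi_div_two, Real.sin_pi_div_two]
      simp
    rw [e]
    simp
  rw [v0] at w0
  rw [v1] at w1
  rw [v2] at w2
  have r1 := w1.sub (w0.const_mul (2 / 3))
  have r2 := w2.sub (w0.const_mul (2 / 3))
  have k1 : (2 + (Ψ η 0).re) * (∫ x, h x) - 2 / 3 * ((2 + 1) * ∫ x, h x) = (Ψ η 0).re * ∫ x, h x := by ring
  have k2 : (2 + (Ψ η 0).im) * (∫ x, h x) - 2 / 3 * ((2 + 1) * ∫ x, h x) = (Ψ η 0).im * ∫ x, h x := by ring
  rw [k1] at r1
  rw [k2] at r2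
  have c1 := (Complex.continuous_ofReal.tendsto _).comp r1
  have c2 := ((Complex.continuous_ofReal.tendsto _).comp r2).mul_const I
  have c3 := c1.add c2
  have e5 : (((Ψ η 0).re * (∫ x, h x) : ℝ) : ℂ) + (((Ψ η 0).im * (∫ x, h x) : ℝ) : ℂ) * I =
      Ψ η 0 * ((∫ x, h x : ℝ) : ℂ) := by
    nth_rw 3 [← Complex.re_add_im (Ψ η 0)]
    push_cast
    ring
  rw [e5] at c3
  refine c3.congr' ?_
  filter_upwards [H.fin] with T hT
  simp only [Function.comp_apply]
  have hw0 : ∀ x : Fin m → ℝ, wt (0 : Fin m → ℝ) 0 x = 3 := fun x => by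
    unfold wt
    simp
    norm_num
  have hcs : ∀ x : Fin m → ℝ, ee η x = ((Real.cos (∑ j, η j * x j) : ℝ) : ℂ) + ((Real.sin (∑ j, η j * x j) : ℝ) : ℂ) * I := by
    intro x
    unfold ee
    rw [Complex.exp_mul_I, Complex.ofReal_cos, Complex.ofReal_sin]
  have m1 : Measurable fun x : Fin m → ℝ => Real.cos (∑ j, η j * x j) := by fun_prop
  have m2 : Measurable fun x : Fin m → ℝ => Real.sin (∑ j, η j * x j) := by fun_prop
  have i1 := h_int (i := i) hh hC (ν T) m1 (B := 1) (fun x => Real.abs_cos_le_one _)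
  have i2 := h_int (i := i) hh hC (ν T) m2 (B := 1) (fun x => Real.abs_sin_le_one _)
  have i0 := h_int (i := i) hh hC (ν T) (measurable_const (a := (1:ℝ))) (B := 1) (fun x => by simp)
  have e6 : ∫ x, ((h (x i) : ℝ) : ℂ) * ee η x ∂(ν T) =
      ((∫ x, Real.cos (∑ j, η j * x j) * h (x i) ∂(ν T) : ℝ) : ℂ) +
      ((∫ x, Real.sin (∑ j, η j * x j) * h (x i) ∂(ν T) : ℝ) : ℂ) * I := by
    have j1 : Integrable (fun x : Fin m → ℝ => ((Real.cos (∑ j, η j * x j) * h (x i) : ℝ) : ℂ)) (ν T) := i1.ofReal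
    have j2 : Integrable (fun x : Fin m → ℝ => ((Real.sin (∑ j, η j * x j) * h (x i) : ℝ) : ℂ) * I) (ν T) :=
      (i2.ofReal).mul_const I
    rw [← integral_complex_ofReal, ← integral_complex_ofReal, ← integral_mul_const, ← integral_add j1 j2]
    refine integral_congr_ae (Eventually.of_forall fun x => ?_)
    simp only
    rw [hcs]
    push_cast
    ring
  have e7 : ∀ φ : ℝ, (∫ x, wt η φ x * h (x i) ∂(ν T)) - 2 / 3 * (∫ x, wt (0 : Fin m → ℝ) 0 x * h (x i) ∂(ν T)) =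
      ∫ x, Real.cos (∑ j, η j * x j + φ) * h (x i) ∂(ν T) := by
    intro φ
    have i3 := h_int (i := i) hh hC (ν T) (wt_cont η φ).measurable (B := 3) (fun x => by
      rw [abs_of_nonneg (by linarith [wt_ge η φ x])]
      exact wt_le η φ x)
    have i4 := h_int (i := i) hh hC (ν T) (wt_cont (0 : Fin m → ℝ) 0).measurable (B := 3) (fun x => by
      rw [hw0]
      norm_num)
    rw [← integral_const_mul, ← integral_sub i3 (i4.const_mul _)]
    refine integral_congr_ae (Eventually.of_forall fun x => ?_)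
    simp only
    rw [hw0]
    unfold wt
    ring
  have e8 := e7 0
  have e9 := e7 (-(Real.pi / 2))
  simp only [add_zero] at e8
  have e10 : ∀ x : Fin m → ℝ, Real.cos (∑ j, η j * x j + -(Real.pi / 2)) = Real.sin (∑ j, η j * x j) := fun x => by
    rw [← sub_eq_add_neg, Real.cos_sub_pi_div_two]
  simp_rw [e10] at e9
  rw [e6, ← e8, ← e9]
  push_cast
  ring

end Run7.h42.LB
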