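import Pool.Agent.Run7.h42.LB.Lev
import Pool.Agent.Run7.h42.LP.App7
import Pool.Agent.N748.MJ.KO

set_option autoImplicit false

/-!
# The landscape of zeta at an exact level (helper42): the measures
-/

namespace Run7.h42.LB

open Finset Filter MeasureTheory Topology Complex
open Pool.Agent.N748.MG Pool.Agent.N748.MJ
open Pool.Agent.N748.MJ.SM (cc)
open Run7.h42.LP

variable {m : ℕ}

/-- half the logarithms `log (1 + ((a j - a l) / 2)^2)` -/
noncomputable def ss (a : Fin m → ℝ) (j l : Fin m) : ℝ := 1 / 2 * Real.log (1 + ((a j - a l) / 2) ^ 2)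

/-- the difference to the main term -/
noncomputable def r1 (δ : ℝ) (h : Fin m → ℝ) (j l : Fin m) : ℝ := LL δ - RL δ h j l

/-- the shifts -/
def sh (a : Fin m → ℝ) (δ : ℝ) : Fin m → ℝ := fun j => δ * a j

lemma r1_lim (hZ : S_LZB) {d : ℝ → ℝ} (hd : Ad d) (a : Fin m → ℝ) (j l : Fin m) :
    Tendsto (fun T => r1 (d T) (sh a (d T)) j l) atTop (𝓝 (ss a j l)) := by
  have h1 := Pool.Agent.N748.MJ.KO.zeta_lim hd (a j - a l)
  have hpos : 0 < 1 + ((a j - a l) / 2) ^ 2 := by positivity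
  have h2 := (Real.continuousAt_log (Real.rpow_pos_of_pos hpos (-(1 / 2))).ne').tendsto.comp h1
  rw [Real.log_rpow hpos] at h2
  have h3 := h2.neg
  have e1 : -(-(1 / 2) * Real.log (1 + ((a j - a l) / 2) ^ 2)) = ss a j l := by
    unfold ss
    ring
  rw [e1] at h3
  refine h3.congr' ?_
  filter_upwards [hd.pos, hd.t0.eventually_le_const (show (0 : ℝ) < 1 / 16 by norm_num)] with T b1 b2
  simp only [Function.comp_apply]
  have hnz : riemannZeta (((1 + 2 * d T : ℝ) : ℂ) + ((d T * (a j - a l) : ℝ) : ℂ) * I) ≠ 0 :=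
    riemannZeta_ne_zero_of_one_le_re (by simp; linarith)
  rw [Real.log_mul (by linarith) (norm_ne_zero_iff.2 hnz)]
  unfold r1 sh
  rw [RL_log hZ b1 b2, ← mul_sub]
  unfold LL
  rw [one_div, Real.log_inv]
  ring

lemma qf_r1 (δ : ℝ) (h ξ : Fin m → ℝ) : qf δ h ξ = LL δ * (∑ j, ξ j) ^ 2 - ∑ j, ∑ l, ξ j * ξ l * r1 δ h j l := by
  unfold qf r1
  have e : ∀ j l : Fin m, ξ j * ξ l * RL δ h j l = LL δ * (ξ j * ξ l) - ξ j * ξ l * (LL δ - RL δ h j l) := by
    intro j l
    ring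
  simp_rw [e, Finset.sum_sub_distrib]
  congr 1
  rw [sq, Finset.sum_mul_sum, Finset.mul_sum]
  refine Finset.sum_congr rfl fun j _ => ?_
  rw [Finset.mul_sum]

/-- the measures are finite -/
lemma fin_nuV {d : ℝ → ℝ} (hd : Ad d) {h : ℝ → Fin m → ℝ} (k : Fin m → ℝ) {K : ℝ} (hkk : ∀ j, |k j| ≤ K)
    {D : ℝ} {N : ℝ → Set ℝ} (hN : ∀ n, ∀ᶠ T : ℝ in atTop, Gd d h D n T (N T)) {r : ℝ → ℝ} {c1 : ℝ} (hc1 : 0 < c1)
    (hr : ∀ T, c1 ≤ r T) (hra : ∀ T, aV (cc k) (cc k) (h T) = r T) :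
    ∀ᶠ T : ℝ in atTop, IsFiniteMeasure (nuV (d T) (r T) T (h T) k (N T)) := by
  have hsm : ∀ᶠ T : ℝ in atTop, 0 < d T ∧ d T ≤ 1 / 16 ∧ 1 ≤ T := by
    filter_upwards [hd.pos, hd.t0.eventually_le_const (show (0 : ℝ) < 1 / 16 by norm_num),
      eventually_ge_atTop 1] with T a b c
    exact ⟨a, b, c⟩
  obtain ⟨n, hn⟩ := exists_nat_gt (max (K) (1 / c1))
  filter_upwards [hN n, hsm] with T hT hT2
  obtain ⟨h0, h1, hT1⟩ := hT2
  have hT0 : 0 < T := by linarith
  have hr0 : 0 < r T := lt_of_lt_of_le hc1 (hr T)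
  have hn1 : 1 / ((n : ℝ) + 1) < r T := by
    have h2 : 1 / c1 < (n : ℝ) + 1 := by linarith [le_max_right (K) (1 / c1)]
    rw [div_lt_iff₀ hc1] at h2
    rw [div_lt_iff₀ (by positivity)]
    have := mul_le_mul_of_nonneg_right (hr T) (by positivity : (0:ℝ) ≤ (n:ℝ) + 1)
    linarith
  have hci : IntegrableOn (fun t : ℝ => ∏ j, ZZ (riemannZeta (pw (d T) (t + h T j))) (cc k j) 0) (N T) volume := by
    by_contra hni
    have h2 := hT.est (cc k) (fun j => by
      unfold cc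
      rw [Complex.norm_real, Real.norm_eq_abs]
      have := hkk j
      linarith [le_max_left (K) (1 / c1)])
    rw [integral_undef hni, mul_zero, zero_sub, norm_neg, hra, norm_mul, Complex.norm_real,
      Complex.norm_real, Real.norm_of_nonneg hT0.le, Real.norm_of_nonneg hr0.le] at h2
    nlinarith
  have hre : IntegrableOn (rhoV (d T) (r T) T (h T) k) (N T) volume := by
    have h3 := hci.norm.const_mul (1 / T * Real.exp (-(qf (d T) (h T) k)) / r T)
    refine h3.congr ?_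
    filter_upwards [ae_restrict_mem hT.meas] with t ht
    unfold rhoV
    congr 1
    rw [norm_prod]
    refine prod_congr rfl fun j _ => ?_
    have hz : 0 < ‖riemannZeta (pw (d T) (t + h T j))‖ := norm_pos_iff.2 (hT.nz t ht j)
    unfold ZZ cc
    rw [zpow_zero, mul_one, Complex.norm_cpow_eq_rpow_re_of_pos hz]
    unfold mz
    congr 1
    simp
  have h4 : IsFiniteMeasure ((volume.restrict (N T)).withDensity
      (fun t => ENNReal.ofReal (rhoV (d T) (r T) T (h T) k t))) :=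
    isFiniteMeasure_withDensity_ofReal hre.2
  unfold nuV
  infer_instance

/-- uniformity over compact sets -/
lemma unif {Y : Type*} [TopologicalSpace Y] {Φ : Y × ℝ → ℂ} (hΦ : Continuous Φ) (y0 : Y) (R : ℝ) {ε : ℝ} (hε : 0 < ε) :
    ∀ᶠ y in 𝓝 y0, ∀ ξ : ℝ, |ξ| ≤ R → ‖Φ (y, ξ) - Φ (y0, ξ)‖ < ε := by
  have h1 := (isCompact_Icc (a := -R) (b := R)).eventually_forall_of_forall_eventually (x₀ := y0)
    (P := fun y ξ => ‖Φ (y, ξ) - Φ (y0, ξ)‖ < ε) (by
      intro ξ0 _
      have hc : Continuous fun z : Y × ℝ => ‖Φ (z.1, z.2) - Φ (y0, z.2)‖ := by fun_prop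
      have h2 := hc.continuousAt (x := (y0, ξ0))
      refine h2.eventually (gt_mem_nhds ?_)
      simp only [sub_self, norm_zero]
      exact hε)
  filter_upwards [h1] with y hy ξ hξ
  exact hy ξ (abs_le.1 hξ)

/-- the exponent -/
noncomputable def Ex (i : Fin m) (V : ℝ) (ρ : Fin m → Fin m → ℝ) (ξ : Fin m → ℝ) : ℂ :=
  cexp (-(((V * ∑ j, ξ j * ρ j i : ℝ) : ℂ) * I) + ((1 / 4 * ∑ j, ∑ l, ξ j * ξ l * ρ j l : ℝ) : ℂ))

/-- the limit of the characteristic function -/
noncomputable def Ps (a : Fin m → ℝ) (i : Fin m) (V : ℝ) (η : Fin m → ℝ) (ξ : ℝ) : ℂ :=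
  Ex i V (ss a) (Pi.single i ξ + η) *
    aV (bb (Pi.single i V) (Pi.single i ξ + η)) (bb (Pi.single i V) (Pi.single i ξ + η)) (fun _ => 0) /
      aC V

lemma sum_single (i : Fin m) (V : ℝ) : ∑ j, (Pi.single i V : Fin m → ℝ) j = V := by
  rw [Finset.sum_pi_single']
  simp

lemma sum_bb (k ξ : Fin m → ℝ) : ∑ j, bb k ξ j = ((∑ j, k j : ℝ) : ℂ) + ((∑ j, ξ j : ℝ) : ℂ) / 2 * I := by
  unfold bb
  rw [Finset.sum_add_distrib]
  push_cast
  rw [Finset.sum_div, Finset.sum_mul]

lemma co1 (i : Fin m) (η : Fin m → ℝ) (j : Fin m) : Continuous fun ξ : ℝ => (Pi.single i ξ + η : Fin m → ℝ) j := by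
  by_cases hj : j = i
  · subst hj
    simp only [Pi.add_apply, Pi.single_eq_same]
    exact continuous_id.add continuous_const
  · simp only [Pi.add_apply, Pi.single_eq_of_ne hj]
    exact continuous_const

lemma co2 (i : Fin m) (V : ℝ) (η : Fin m → ℝ) : Continuous fun ξ : ℝ => bb (Pi.single i V) (Pi.single i ξ + η) := by
  refine continuous_pi fun j => ?_
  unfold bb
  exact continuous_const.add (((Complex.continuous_ofReal.comp (co1 i η j)).div_const 2).mul continuous_const)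

lemma co3 (i : Fin m) (V : ℝ) (η : Fin m → ℝ) :
    Continuous fun z : (Fin m → Fin m → ℝ) × ℝ => Ex i V z.1 (Pi.single i z.2 + η) := by
  have h7 : ∀ j : Fin m, Continuous fun z : (Fin m → Fin m → ℝ) × ℝ => (Pi.single i z.2 + η : Fin m → ℝ) j :=
    fun j => (co1 i η j).comp continuous_snd
  have h8 : ∀ j l : Fin m, Continuous fun z : (Fin m → Fin m → ℝ) × ℝ => z.1 j l := fun j l =>
    (continuous_apply l).comp ((continuous_apply j).comp continuous_fst)
  have h9 : Continuous fun z : (Fin m → Fin m → ℝ) × ℝ => V * ∑ j, (Pi.single i z.2 + η : Fin m → ℝ) j * z.1 j i :=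
    continuous_const.mul (continuous_finsetSum _ fun j _ => (h7 j).mul (h8 j i))
  have h10 : Continuous fun z : (Fin m → Fin m → ℝ) × ℝ =>
      1 / 4 * ∑ j, ∑ l, (Pi.single i z.2 + η : Fin m → ℝ) j * (Pi.single i z.2 + η : Fin m → ℝ) l * z.1 j l :=
    continuous_const.mul (continuous_finsetSum _ fun j _ => continuous_finsetSum _ fun l _ =>
      ((h7 j).mul (h7 l)).mul (h8 j l))
  unfold Ex
  exact Complex.continuous_exp.comp (((Complex.continuous_ofReal.comp h9).mul continuous_const).neg.add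
    (Complex.continuous_ofReal.comp h10))

lemma co4 (i : Fin m) (V : ℝ) (η : Fin m → ℝ) (ρ : Fin m → Fin m → ℝ) :
    Continuous fun ξ : ℝ => Ex i V ρ (Pi.single i ξ + η) := by
  have c0 : Continuous fun ξ : ℝ => ((ρ, ξ) : (Fin m → Fin m → ℝ) × ℝ) := continuous_const.prodMk continuous_id
  have c1 := Continuous.comp (co3 i V η) c0
  exact c1

lemma co5 (hC : S_CONV) (i : Fin m) (V : ℝ) (η : Fin m → ℝ) :
    Continuous fun z : (Fin m → ℝ) × ℝ => aV (bb (Pi.single i V) (Pi.single i z.2 + η))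
      (bb (Pi.single i V) (Pi.single i z.2 + η)) z.1 := by
  have c0 : Continuous fun z : (Fin m → ℝ) × ℝ => bb (Pi.single i V) (Pi.single i z.2 + η) := by
    have := Continuous.comp (co2 i V η) (continuous_snd (X := Fin m → ℝ) (Y := ℝ))
    exact this
  have c1 : Continuous fun z : (Fin m → ℝ) × ℝ => ((bb (Pi.single i V) (Pi.single i z.2 + η),
      bb (Pi.single i V) (Pi.single i z.2 + η), z.1) : (Fin m → ℂ) × (Fin m → ℂ) × (Fin m → ℝ)) :=
    c0.prodMk (c0.prodMk continuous_fst)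
  have c2 := Continuous.comp (hC m) c1
  exact c2

lemma co6 (hC : S_CONV) (i : Fin m) (V : ℝ) (η : Fin m → ℝ) (h : Fin m → ℝ) :
    Continuous fun ξ : ℝ => aV (bb (Pi.single i V) (Pi.single i ξ + η))
      (bb (Pi.single i V) (Pi.single i ξ + η)) h := by
  have c0 : Continuous fun ξ : ℝ => ((h, ξ) : (Fin m → ℝ) × ℝ) := continuous_const.prodMk continuous_id
  have c1 := Continuous.comp (co5 hC i V η) c0
  exact c1

/-- the function of the parameters -/
noncomputable def Ph (i : Fin m) (V : ℝ) (η : Fin m → ℝ) (z : ((Fin m → Fin m → ℝ) × (Fin m → ℝ) × ℝ) × ℝ) : ℂ :=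
  Ex i V z.1.1 (Pi.single i z.2 + η) *
    aV (bb (Pi.single i V) (Pi.single i z.2 + η)) (bb (Pi.single i V) (Pi.single i z.2 + η)) z.1.2.1 * (z.1.2.2 : ℂ)

lemma Ph_cont (hC : S_CONV) (i : Fin m) (V : ℝ) (η : Fin m → ℝ) : Continuous (Ph i V η) := by
  have g1 : Continuous fun z : ((Fin m → Fin m → ℝ) × (Fin m → ℝ) × ℝ) × ℝ => (z.1.1, z.2) := by fun_prop
  have g2 : Continuous fun z : ((Fin m → Fin m → ℝ) × (Fin m → ℝ) × ℝ) × ℝ => (z.1.2.1, z.2) := by fun_prop
  have g3 : Continuous fun z : ((Fin m → Fin m → ℝ) × (Fin m → ℝ) × ℝ) × ℝ => (z.1.2.2 : ℂ) := by fun_prop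
  have c1 := Continuous.comp (co3 i V η) g1
  have c2 := Continuous.comp (co5 hC i V η) g2
  have c3 := (c1.mul c2).mul g3
  exact c3

/-- the translated measures -/
noncomputable def nuL (δ r T : ℝ) (h : Fin m → ℝ) (i : Fin m) (V : ℝ) (N : Set ℝ) : Measure (Fin m → ℝ) :=
  (nuV δ r T h (Pi.single i V) N).map fun x j => x j - V * r1 δ h j i

lemma tr_meas (c : Fin m → ℝ) : Measurable fun (x : Fin m → ℝ) (j : Fin m) => x j - c j :=
  measurable_pi_lambda _ fun j => (measurable_pi_apply j).sub_const _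

lemma cf_tr (κ : Measure (Fin m → ℝ)) (c ξ : Fin m → ℝ) :
    cf (κ.map fun x j => x j - c j) ξ = cexp (-(((∑ j, ξ j * c j : ℝ) : ℂ) * I)) * cf κ ξ := by
  unfold cf
  rw [integral_map (tr_meas c).aemeasurable (ee_cont2 ξ).aestronglyMeasurable, ← integral_const_mul]
  refine integral_congr_ae (Eventually.of_forall fun x => ?_)
  simp only
  unfold ee
  rw [← Complex.exp_add]
  congr 1
  have : ∑ j, ξ j * (x j - c j) = ∑ j, ξ j * x j - ∑ j, ξ j * c j := by
    rw [← Finset.sum_sub_distrib]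
    exact Finset.sum_congr rfl fun j _ => by ring
  rw [this]
  push_cast
  ring

/-- the hypotheses of the local limit theorem hold -/
theorem LBHnu (hZ : S_LZB) (hC : S_CONV) (hA : S_AV0) {d : ℝ → ℝ} (hd : Ad d) (a : Fin m → ℝ)
    (i : Fin m) (V : ℝ) {D : ℝ} {N : ℝ → Set ℝ}
    (hN : ∀ n, ∀ᶠ T : ℝ in atTop, Gd d (fun T => sh a (d T)) D n T (N T)) {r : ℝ → ℝ} {c1 : ℝ} (hc1 : 0 < c1)
    (hr : ∀ T, c1 ≤ r T)
    (hra : ∀ T, aV (cc (Pi.single i V)) (cc (Pi.single i V)) (sh a (d T)) = r T) :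
    LBH i {η : Fin m → ℝ | ∑ j, η j = 0} (fun T => nuL (d T) (r T) T (sh a (d T)) i V (N T))
      (fun T => LL (d T)) (Ps a i V) := by
  have hcc : cc (Pi.single i V : Fin m → ℝ) = fun j => (((Pi.single i V : Fin m → ℝ) j : ℝ) : ℂ) := rfl
  have hsm : ∀ᶠ T : ℝ in atTop, 0 < d T ∧ d T ≤ 1 / 16 ∧ 1 ≤ T := by
    filter_upwards [hd.pos, hd.t0.eventually_le_const (show (0 : ℝ) < 1 / 16 by norm_num),
      eventually_ge_atTop 1] with T a b c
    exact ⟨a, b, c⟩
  have hshl : Tendsto (fun T => sh a (d T)) atTop (𝓝 (fun _ => 0)) := by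
    rw [tendsto_pi_nhds]
    intro j
    have := hd.t0.mul_const (a j)
    rw [zero_mul] at this
    exact this
  have hrl : Tendsto (fun T => ((r T : ℝ) : ℂ)) atTop (𝓝 (aC V)) := by
    have h1 := ((hC m).tendsto (cc (Pi.single i V), cc (Pi.single i V), (fun _ => 0)))
    have h2 : Tendsto (fun T : ℝ => (((cc (Pi.single i V)), (cc (Pi.single i V)), sh a (d T)) :
        (Fin m → ℂ) × (Fin m → ℂ) × (Fin m → ℝ))) atTop (𝓝 (cc (Pi.single i V), cc (Pi.single i V), (fun _ => 0))) :=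
      tendsto_const_nhds.prodMk_nhds (tendsto_const_nhds.prodMk_nhds hshl)
    have h3 := h1.comp h2
    have h4 : aV (cc (Pi.single i V)) (cc (Pi.single i V)) (fun _ : Fin m => 0) = aC V := by
      rw [hA m _ _ rfl, hcc]
      congr 1
      rw [← Complex.ofReal_sum, sum_single]
    simp only [h4] at h3
    refine h3.congr fun T => ?_
    simp only [Function.comp_apply]
    rw [hra]
  have hrlr : Tendsto r atTop (𝓝 (aC V).re) := by
    have := (Complex.continuous_re.tendsto _).comp hrl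
    exact this
  have hV0 : (aC V).re ≠ 0 := by
    have h5 : c1 ≤ (aC V).re := ge_of_tendsto hrlr (Eventually.of_forall hr)
    linarith
  have hVr : aC V = (((aC V).re : ℝ) : ℂ) := by
    have h6 : Tendsto (fun T => ((r T : ℝ) : ℂ)) atTop (𝓝 (((aC V).re : ℝ) : ℂ)) :=
      (Complex.continuous_ofReal.tendsto _).comp hrlr
    exact tendsto_nhds_unique hrl h6
  have hV00 : aC V ≠ 0 := by
    rw [hVr]
    exact_mod_cast hV0
  refine ⟨?_, LL_lim hd, by simp, ?_, ?_, ?_, ?_⟩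
  · -- finite
    have h1 := fin_nuV hd (Pi.single i V) (K := ∑ j, |(Pi.single i V : Fin m → ℝ) j|)
      (fun j => Finset.single_le_sum (f := fun i' => |(Pi.single i V : Fin m → ℝ) i'|) (fun i _ => abs_nonneg _) (mem_univ j))
      hN hc1 hr hra
    filter_upwards [h1] with T hT
    unfold nuL
    infer_instance
  · intro η hη
    simp only [Set.mem_ofPred_eq, Pi.neg_apply, Finset.sum_neg_distrib, neg_eq_zero] at hη ⊢
    exact hη
  · intro η _
    have c1 := ((co4 i V η (ss a)).mul (co6 hC i V η (fun _ => 0))).div_const (aC V)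
    exact c1
  · unfold Ps
    have e1 : (Pi.single i (0:ℝ) + 0 : Fin m → ℝ) = 0 := by simp
    rw [e1, hA m _ _ rfl, sum_bb, sum_single]
    have e2 : Ex i V (ss a) 0 = 1 := by
      unfold Ex
      simp
    rw [e2]
    simp [hV00]
  · -- the characteristic functions
    intro η hη R hR ε hε
    -- parameters
    have u1 := unif (Ph_cont hC i V η) (ss a, (fun _ => 0), ((aC V).re)⁻¹) R (half_pos hε)
    have u2 := unif (co3 i V η) (ss a) R one_pos
    have hρl : Tendsto (fun T => (fun j l => r1 (d T) (sh a (d T)) j l : Fin m → Fin m → ℝ)) atTop (𝓝 (ss a)) := by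
      rw [tendsto_pi_nhds]
      intro j
      rw [tendsto_pi_nhds]
      intro l
      exact r1_lim hZ hd a j l
    have hyl : Tendsto (fun T => (((fun j l => r1 (d T) (sh a (d T)) j l), sh a (d T), (r T)⁻¹) : (Fin m → Fin m → ℝ) × (Fin m → ℝ) × ℝ)) atTop
        (𝓝 (ss a, (fun _ => 0), ((aC V).re)⁻¹)) :=
      hρl.prodMk_nhds (hshl.prodMk_nhds (hrlr.inv₀ hV0))
    have v1 := hyl.eventually u1
    have v2 := hρl.eventually u2
    -- a bound for the exponent
    obtain ⟨B0, hB0⟩ := (isCompact_Icc (a := -R) (b := R)).exists_bound_of_continuousOn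
      (co4 i V η (ss a)).continuousOn
    set B : ℝ := max B0 0 + 1 with hB
    have hB1 : 0 < B := by
      have := le_max_right B0 0
      linarith
    -- the number n
    set K : ℝ := |V| + (R + ∑ j, |η j|) with hK
    obtain ⟨n, hn⟩ := exists_nat_gt (max K (2 * B / (ε * c1)))
    have hnn : B * (1 / ((n:ℝ) + 1)) / c1 ≤ ε / 2 := by
      have h7 : 2 * B / (ε * c1) < (n:ℝ) + 1 := by linarith [le_max_right K (2 * B / (ε * c1))]
      rw [div_lt_iff₀ (by positivity)] at h7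
      rw [div_le_iff₀ hc1, mul_one_div, div_le_iff₀ (by positivity)]
      linarith
    filter_upwards [v1, v2, hN n, hsm] with T w1 w2 hT hT2 ξ hξ
    obtain ⟨h0, h1, hT1⟩ := hT2
    have hT0 : 0 < T := by linarith
    have hr0 : 0 < r T := lt_of_lt_of_le hc1 (hr T)
    have hsum : ∑ j, (Pi.single i ξ + η : Fin m → ℝ) j = ξ := by
      simp only [Pi.add_apply]
      rw [Finset.sum_add_distrib, sum_single]
      have : ∑ j, η j = 0 := hη
      rw [this, add_zero]
    set ξ' : Fin m → ℝ := Pi.single i ξ + η with hξ'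
    have hbn : ∀ j, ‖bb (Pi.single i V) ξ' j‖ ≤ (n:ℝ) + 1 := fun j => by
      have h2 := bb_norm (Pi.single i V) ξ' j
      have h3 : |(Pi.single i V : Fin m → ℝ) j| ≤ |V| := by
        by_cases hj : j = i
        · subst hj
          rw [Pi.single_eq_same]
        · rw [Pi.single_eq_of_ne hj, abs_zero]
          exact abs_nonneg _
      have h4 : |ξ' j| ≤ R + ∑ j, |η j| := by
        rw [hξ', Pi.add_apply]
        refine (abs_add_le _ _).trans (add_le_add ?_ ?_)
        · by_cases hj : j = i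
          · subst hj
            rw [Pi.single_eq_same]
            exact hξ
          · rw [Pi.single_eq_of_ne hj, abs_zero]
            exact hR.le
        · exact Finset.single_le_sum (f := fun j => |η j|) (fun j _ => abs_nonneg _) (mem_univ j)
      have h5 : K < n := (le_max_left _ _).trans_lt hn
      linarith [abs_nonneg (ξ' j)]
    have hest := hT.est (bb (Pi.single i V) ξ') hbn
    unfold nuL
    rw [cf_tr, cf_nuV h0 h1 hr0 hT0 (sh a (d T)) (Pi.single i V) ξ' hT.meas hT.nz, qf_r1, hsum]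
    set W : ℂ := cexp (-(LM (bb (Pi.single i V) ξ') (bb (Pi.single i V) ξ') (sh a (d T)) (d T))) *
      ∫ t in N T, ∏ j, ZZ (riemannZeta (pw (d T) (t + sh a (d T) j))) (bb (Pi.single i V) ξ' j) 0 with hW
    set A : ℂ := aV (bb (Pi.single i V) ξ') (bb (Pi.single i V) ξ') (sh a (d T)) with hAd
    set ρ1 : Fin m → Fin m → ℝ := fun j l => r1 (d T) (sh a (d T)) j l with hρ1
    set G : ℝ := Real.exp (-(ξ ^ 2 * LL (d T) / 4)) with hG
    have hG0 : 0 < G := Real.exp_pos _
    have e1 : cexp (-(((∑ j, ξ' j * (V * r1 (d T) (sh a (d T)) j i) : ℝ) : ℂ) * I)) *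
        (((1 / (T * r T) * Real.exp (-((LL (d T) * ξ ^ 2 - ∑ j, ∑ l, ξ' j * ξ' l * r1 (d T) (sh a (d T)) j l) / 4)) : ℝ) : ℂ) * W) =
        G * (Ex i V ρ1 ξ' * (W / T) * ((r T)⁻¹ : ℝ)) := by
      have e2 : Real.exp (-((LL (d T) * ξ ^ 2 - ∑ j, ∑ l, ξ' j * ξ' l * r1 (d T) (sh a (d T)) j l) / 4)) =
          G * Real.exp (1 / 4 * ∑ j, ∑ l, ξ' j * ξ' l * ρ1 j l) := by
        rw [hG, ← Real.exp_add]
        congr 1
        rw [hρ1]
        ring
      have e3 : ∑ j, ξ' j * (V * r1 (d T) (sh a (d T)) j i) = V * ∑ j, ξ' j * ρ1 j i := by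
        rw [Finset.mul_sum]
        exact Finset.sum_congr rfl fun j _ => by rw [hρ1]; ring
      rw [e2, e3]
      unfold Ex
      rw [Complex.exp_add, Complex.ofReal_mul, Complex.ofReal_mul, Complex.ofReal_exp _, Complex.ofReal_inv]
      push_cast
      field_simp
      rw [hG]
      push_cast
      ring
    rw [e1]
    have hinv : (((aC V).re⁻¹ : ℝ) : ℂ) = (aC V)⁻¹ := by
      rw [Complex.ofReal_inv, ← hVr]
    have e4 : Ps a i V η ξ * G = G * Ph i V η ((ss a, (fun _ => 0), ((aC V).re)⁻¹), ξ) := by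
      unfold Ps Ph
      rw [hinv]
      ring
    have e5 : Ex i V ρ1 ξ' * (W / T) * (((r T)⁻¹ : ℝ) : ℂ) = Ex i V ρ1 ξ' * ((W - T * A) / T) * (((r T)⁻¹ : ℝ) : ℂ) +
        Ph i V η ((ρ1, sh a (d T), (r T)⁻¹), ξ) := by
      unfold Ph
      have hT' : (T : ℂ) ≠ 0 := by exact_mod_cast hT0.ne'
      field_simp
      ring
    rw [e4, ← mul_sub, norm_mul, Complex.norm_real, Real.norm_of_nonneg hG0.le, mul_comm G]
    refine mul_le_mul_of_nonneg_right ?_ hG0.le
    rw [e5, add_sub_assoc]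
    refine (norm_add_le _ _).trans ?_
    have b1 : ‖Ex i V ρ1 ξ' * ((W - T * A) / T) * (((r T)⁻¹ : ℝ) : ℂ)‖ ≤ B * (1 / ((n:ℝ) + 1)) / c1 := by
      rw [norm_mul, norm_mul, norm_div, Complex.norm_real, Complex.norm_real, Real.norm_of_nonneg hT0.le,
        Real.norm_of_nonneg (inv_nonneg.2 hr0.le), div_eq_mul_inv (B * _) c1]
      refine mul_le_mul (mul_le_mul ?_ ?_ (by positivity) hB1.le) ?_ (by positivity) (by positivity)
      · have h8 := hB0 ξ (abs_le.1 hξ)
        have h9 := w2 ξ hξ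
        have h10 : ‖Ex i V ρ1 ξ'‖ ≤ ‖Ex i V (ss a) ξ'‖ + ‖Ex i V ρ1 ξ' - Ex i V (ss a) ξ'‖ := by
          have := norm_add_le (Ex i V (ss a) ξ') (Ex i V ρ1 ξ' - Ex i V (ss a) ξ')
          rwa [add_sub_cancel] at this
        have h11 : ‖Ex i V (ss a) ξ'‖ ≤ B0 := h8
        have h12 : ‖Ex i V ρ1 ξ' - Ex i V (ss a) ξ'‖ < 1 := h9
        linarith [le_max_left B0 0]
      · rw [div_le_iff₀ hT0]
        exact hest
      · exact inv_anti₀ hc1 (hr T)
    have b2 := (w1 ξ hξ).le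
    linarith

end Run7.h42.LB
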