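import Pool.Agent.Run7.h42.LB.App
import Mathlib.Probability.Distributions.Gaussian.Multivariate

set_option autoImplicit false

/-!
# The landscape of zeta at an exact level (helper42): the theorem
-/

namespace Run7.h42.LB

open Finset Filter MeasureTheory Topology Complex ProbabilityTheory
open Pool.Agent.N748.MG Pool.Agent.N748.MJ
open Pool.Agent.N748.MJ.SM (cc)
open Run7.h42.LP

variable {m : ℕ}

/-- the covariance matrix -/
noncomputable def cv (a : Fin m → ℝ) (i : Fin m) : Matrix (Fin m) (Fin m) ℝ :=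
  Matrix.of fun j l => (ss a j i + ss a l i - ss a j l) / 2

/-- the mean -/
noncomputable def mn (a : Fin m → ℝ) (i : Fin m) (V : ℝ) : EuclideanSpace ℝ (Fin m) :=
  WithLp.toLp 2 fun j => -(V * ss a j i)

lemma ss_self (a : Fin m → ℝ) (j : Fin m) : ss a j j = 0 := by
  unfold ss
  simp

lemma ss_symm (a : Fin m → ℝ) (j l : Fin m) : ss a j l = ss a l j := by
  unfold ss
  rw [show ((a j - a l) / 2) ^ 2 = ((a l - a j) / 2) ^ 2 by ring]

lemma pr_sum (i : Fin m) (t : Fin m → ℝ) : ∑ j, pr i t j = 0 := by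
  unfold pr
  simp only [Pi.sub_apply]
  rw [Finset.sum_sub_distrib, sum_single, sub_self]

lemma sum_pr (i : Fin m) (t c : Fin m → ℝ) : ∑ j, pr i t j * c j = ∑ j, t j * c j - (∑ j, t j) * c i := by
  unfold pr
  simp only [Pi.sub_apply, sub_mul, Finset.sum_sub_distrib]
  congr 1
  rw [Finset.sum_eq_single i]
  · rw [Pi.single_eq_same]
  · intro j _ hj
    rw [Pi.single_eq_of_ne hj, zero_mul]
  · intro h
    exact absurd (Finset.mem_univ i) h

lemma quad_pr (a : Fin m → ℝ) (i : Fin m) (t : Fin m → ℝ) :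
    ∑ j, ∑ l, pr i t j * pr i t l * ss a j l = ∑ j, ∑ l, t j * t l * ss a j l - 2 * (∑ j, t j) * ∑ j, t j * ss a j i := by
  have e1 : ∀ j, ∑ l, pr i t j * pr i t l * ss a j l = pr i t j * (∑ l, t l * ss a j l - (∑ l, t l) * ss a j i) := by
    intro j
    rw [← sum_pr i t (fun l => ss a j l), Finset.mul_sum]
    exact Finset.sum_congr rfl fun l _ => by ring
  simp_rw [e1]
  rw [sum_pr i t (fun j => ∑ l, t l * ss a j l - (∑ l, t l) * ss a j i), ss_self]
  have e2 : ∑ j, t j * (∑ l, t l * ss a j l - (∑ l, t l) * ss a j i) =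
      ∑ j, ∑ l, t j * t l * ss a j l - (∑ l, t l) * ∑ j, t j * ss a j i := by
    rw [Finset.mul_sum, ← Finset.sum_sub_distrib]
    refine Finset.sum_congr rfl fun j _ => ?_
    rw [mul_sub, Finset.mul_sum]
    congr 1
    · exact Finset.sum_congr rfl fun l _ => by ring
    · ring
  have e3 : ∑ l, t l * ss a i l = ∑ j, t j * ss a j i := Finset.sum_congr rfl fun l _ => by rw [ss_symm]
  rw [e2, e3]
  ring

lemma quad_cv (a : Fin m → ℝ) (i : Fin m) (t : Fin m → ℝ) :
    t ⬝ᵥ (cv a i).mulVec t = -(1 / 2 * ∑ j, ∑ l, pr i t j * pr i t l * ss a j l) := by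
  rw [quad_pr, dotProduct]
  have e1 : ∀ j, t j * (cv a i).mulVec t j = ∑ l, t j * t l * ((ss a j i + ss a l i - ss a j l) / 2) := by
    intro j
    rw [Matrix.mulVec, dotProduct, Finset.mul_sum]
    refine Finset.sum_congr rfl fun l _ => ?_
    unfold cv
    rw [Matrix.of_apply]
    ring
  simp_rw [e1]
  have e2 : ∀ j l : Fin m, t j * t l * ((ss a j i + ss a l i - ss a j l) / 2) =
      1 / 2 * (t j * ss a j i) * t l + 1 / 2 * t j * (t l * ss a l i) - 1 / 2 * (t j * t l * ss a j l) := by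
    intro j l
    ring
  simp_rw [e2, Finset.sum_sub_distrib, Finset.sum_add_distrib, ← Finset.mul_sum, ← Finset.sum_mul, ← Finset.mul_sum]
  ring

lemma Ps_zero (hA : S_AV0) (a : Fin m → ℝ) (i : Fin m) (V : ℝ) (hV : aC V ≠ 0)
    {η : Fin m → ℝ} (hη : ∑ j, η j = 0) : Ps a i V η 0 = Ex i V (ss a) η := by
  unfold Ps
  have e1 : (Pi.single i (0:ℝ) + η : Fin m → ℝ) = η := by simp
  rw [e1, hA m _ _ rfl, sum_bb, sum_single, hη]
  simp only [Complex.ofReal_zero, zero_div, zero_mul, add_zero]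
  field_simp

/-- the characteristic function of the Gaussian law -/
lemma cf_gauss (a : Fin m → ℝ) (i : Fin m) (V : ℝ) (hS : (cv a i).PosSemidef) (t : EuclideanSpace ℝ (Fin m)) :
    charFun (multivariateGaussian (mn a i V) (cv a i)) t = Ex i V (ss a) (pr i (WithLp.ofLp t)) := by
  rw [charFun_multivariateGaussian hS]
  unfold Ex
  congr 1
  have e1 : inner ℝ t (mn a i V) = -(V * ∑ j, pr i (WithLp.ofLp t) j * ss a j i) := by
    rw [sum_pr i (WithLp.ofLp t) (fun j => ss a j i), ss_self, mul_zero, sub_zero, PiLp.inner_apply, Finset.mul_sum,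
      ← Finset.sum_neg_distrib]
    refine Finset.sum_congr rfl fun j _ => ?_
    unfold mn
    simp only [RCLike.inner_apply, conj_trivial]
    ring
  have e2 := quad_cv a i (WithLp.ofLp t)
  rw [e1]
  have e3 : (((WithLp.ofLp t) ⬝ᵥ (cv a i).mulVec (WithLp.ofLp t) : ℝ) : ℂ) / 2 =
      -((1 / 4 * ∑ j, ∑ l, pr i (WithLp.ofLp t) j * pr i (WithLp.ofLp t) l * ss a j l : ℝ) : ℂ) := by
    rw [e2]
    push_cast
    ring
  rw [e3]
  push_cast
  ring

end Run7.h42.LB
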