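import Pool.Agent.Run7.h42.LB.Fin
import Pool.Agent.N748.MG.Res

set_option autoImplicit false

/-!
# The landscape of zeta at an exact level (helper42): the limit theorem
-/

namespace Run7.h42.LB

open Finset Filter MeasureTheory Topology Complex ProbabilityTheory
open Pool.Agent.N748.MG Pool.Agent.N748.MJ
open Pool.Agent.N748.MJ.SM (cc)
open Run7.h42.LP

variable {m : ℕ}

lemma me_single (δ : ℝ) (h : Fin m → ℝ) (i : Fin m) (V : ℝ) (j : Fin m) :
    me δ h (Pi.single i V) j = V * RL δ h j i := by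
  unfold me
  rw [Finset.sum_eq_single i]
  · rw [Pi.single_eq_same]
  · intro l _ hl
    rw [Pi.single_eq_of_ne hl, zero_mul]
  · intro h
    exact absurd (Finset.mem_univ i) h

lemma qf_single (δ : ℝ) (h : Fin m → ℝ) (i : Fin m) (V : ℝ) : qf δ h (Pi.single i V) = V ^ 2 * RL δ h i i := by
  rw [← sum_me']
  simp_rw [me_single]
  rw [Finset.sum_eq_single i]
  · rw [Pi.single_eq_same]
    ring
  · intro l _ hl
    rw [Pi.single_eq_of_ne hl, zero_mul]
  · intro h
    exact absurd (Finset.mem_univ i) h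

/-- the logarithms minus the level -/
noncomputable def Xt (δ : ℝ) (h : Fin m → ℝ) (V t : ℝ) : Fin m → ℝ := fun j => Real.log (mz δ (t + h j)) - V * LL δ

lemma Xt_eq (δ : ℝ) (h : Fin m → ℝ) (i : Fin m) (V t : ℝ) :
    (fun j => XV δ h (Pi.single i V) t j - V * r1 δ h j i) = Xt δ h V t := by
  funext j
  unfold XV Xt r1
  rw [me_single]
  ring

lemma Xt_meas {δ : ℝ} (h0 : 0 < δ) (h1 : δ ≤ 1 / 16) (h : Fin m → ℝ) (V : ℝ) : Measurable (Xt δ h V) :=
  measurable_pi_lambda _ fun j => (Real.measurable_log.comp (mz_meas h0 h1 (h j))).sub_const _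

/-- the integral over the translated measures -/
lemma int_nuL {δ r T : ℝ} (h0 : 0 < δ) (h1 : δ ≤ 1 / 16) (hr : 0 < r) (hT : 0 < T) (h : Fin m → ℝ) (i : Fin m)
    (V : ℝ) {N : Set ℝ} (hN : MeasurableSet N) (hnz : ∀ t ∈ N, ∀ j, riemannZeta (pw δ (t + h j)) ≠ 0)
    {P : (Fin m → ℝ) → ℝ} (hP : Measurable P) :
    ∫ x, Real.exp (-(2 * V * x i)) * P x ∂(nuL δ r T h i V N) =
      (2 * δ) ^ (-(V ^ 2)) * Real.exp (V ^ 2 * r1 δ h i i) / r * ((1 / T) * ∫ t in N, P (Xt δ h V t)) := by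
  have hm : Measurable fun x : Fin m → ℝ => Real.exp (-(2 * V * x i)) * P x := by fun_prop
  unfold nuL
  rw [integral_map (tr_meas fun j => V * r1 δ h j i).aemeasurable hm.aestronglyMeasurable]
  set g' : (Fin m → ℝ) → ℝ := fun x => Real.exp (2 * V ^ 2 * r1 δ h i i) * P (fun j => x j - V * r1 δ h j i) with hg'
  have hg'm : Measurable g' := (hP.comp (tr_meas fun j => V * r1 δ h j i)).const_mul _
  have e1 : ∀ x : Fin m → ℝ, Real.exp (-(2 * V * (x i - V * r1 δ h i i))) * P (fun j => x j - V * r1 δ h j i) =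
      Real.exp (-(∑ j, 2 * (Pi.single i V : Fin m → ℝ) j * x j)) * g' x := by
    intro x
    have e2 : ∑ j, 2 * (Pi.single i V : Fin m → ℝ) j * x j = 2 * V * x i := by
      rw [Finset.sum_eq_single i]
      · rw [Pi.single_eq_same]
      · intro l _ hl
        rw [Pi.single_eq_of_ne hl, mul_zero, zero_mul]
      · intro h
        exact absurd (Finset.mem_univ i) h
    rw [e2, hg']
    simp only
    rw [← mul_assoc, ← Real.exp_add]
    congr 2
    ring
  simp_rw [e1]
  rw [int_g h0 h1 hr hT h (Pi.single i V) hN hnz hg'm, hg']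
  simp only
  have e3 : ∀ t, (fun j => XV δ h (Pi.single i V) t j - V * r1 δ h j i) = Xt δ h V t := Xt_eq δ h i V
  simp_rw [e3]
  rw [integral_const_mul, qf_single]
  have e4 : Real.exp (V ^ 2 * RL δ h i i) * Real.exp (2 * V ^ 2 * r1 δ h i i) =
      (2 * δ) ^ (-(V ^ 2)) * Real.exp (V ^ 2 * r1 δ h i i) := by
    rw [Real.rpow_def_of_pos (by linarith), ← Real.exp_add, ← Real.exp_add]
    congr 1
    unfold r1 LL
    rw [one_div, Real.log_inv]
    ring
  calc Real.exp (V ^ 2 * RL δ h i i) / r * (1 / T * (Real.exp (2 * V ^ 2 * r1 δ h i i) * ∫ t in N, P (Xt δ h V t)))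
      = (Real.exp (V ^ 2 * RL δ h i i) * Real.exp (2 * V ^ 2 * r1 δ h i i)) / r * (1 / T * ∫ t in N, P (Xt δ h V t)) := by
        ring
    _ = _ := by rw [e4]

lemma small {δ V : ℝ} (h0 : 0 < δ) (h1 : δ ≤ 1 / 16) :
    Real.sqrt (Real.pi * LL δ) * (2 * δ) ^ (-(V ^ 2)) * δ ^ (V ^ 2 + 1) ≤ Real.sqrt (2 * δ) := by
  have hLL : LL δ ≤ 1 / (2 * δ) := Real.log_le_self (by positivity)
  have e1 : (2 * δ) ^ (-(V ^ 2)) ≤ δ ^ (-(V ^ 2)) :=
    Real.rpow_le_rpow_of_nonpos h0 (by linarith) (by nlinarith [sq_nonneg V])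
  have e2 : δ ^ (-(V ^ 2)) * δ ^ (V ^ 2 + 1) = δ := by
    rw [← Real.rpow_add h0, show -(V ^ 2) + (V ^ 2 + 1) = 1 by ring, Real.rpow_one]
  have e3 : Real.sqrt (Real.pi * LL δ) * (2 * δ) ^ (-(V ^ 2)) * δ ^ (V ^ 2 + 1) ≤
      Real.sqrt (Real.pi * LL δ) * δ := by
    rw [mul_assoc]
    refine mul_le_mul_of_nonneg_left ?_ (Real.sqrt_nonneg _)
    calc (2 * δ) ^ (-(V ^ 2)) * δ ^ (V ^ 2 + 1) ≤ δ ^ (-(V ^ 2)) * δ ^ (V ^ 2 + 1) :=
          mul_le_mul_of_nonneg_right e1 (Real.rpow_nonneg h0.le _)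
      _ = δ := e2
  refine e3.trans ?_
  have e4 : Real.sqrt (Real.pi * LL δ) * δ = Real.sqrt (Real.pi * LL δ * δ ^ 2) := by
    rw [Real.sqrt_mul' _ (sq_nonneg δ), Real.sqrt_sq h0.le]
  rw [e4]
  apply Real.sqrt_le_sqrt
  have h5 : LL δ * δ ≤ 1 / 2 := by
    calc LL δ * δ ≤ 1 / (2 * δ) * δ := mul_le_mul_of_nonneg_right hLL h0.le
      _ = 1 / 2 := by field_simp
  have hpi := Real.pi_le_four
  have hpi0 := Real.pi_pos
  have h6 : Real.pi * (LL δ * δ) ≤ 2 := by
    calc Real.pi * (LL δ * δ) ≤ Real.pi * (1 / 2) := mul_le_mul_of_nonneg_left h5 hpi0.le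
      _ ≤ 2 := by linarith
  calc Real.pi * LL δ * δ ^ 2 = Real.pi * (LL δ * δ) * δ := by ring
    _ ≤ 2 * δ := mul_le_mul_of_nonneg_right h6 h0.le

/-- the covariance matrix is positive semidefinite, and the law at an exact level -/
theorem landscape (hJ : S_JM) (hP : S_POSV) (hZ : S_LZB) (hC : S_CONV) (hA : S_AV0) {d : ℝ → ℝ} (hd : Ad d)
    (a : Fin m → ℝ) (i : Fin m) (V : ℝ) :
    (cv a i).PosSemidef ∧
    ∀ (g : ℝ → ℝ) (S : Finset ℝ) (F : EuclideanSpace ℝ (Fin m) → ℝ) (M B : ℝ), Measurable g →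
      (∀ x, x ∉ S → ContinuousAt g x) → (∀ x, |g x| ≤ M) → (∀ x, |g x| * (1 + x ^ 2) ≤ M * Real.exp (2 * V * x)) →
      Measurable F → (∀ y, |F y| ≤ B) → (∀ᵐ y ∂(multivariateGaussian (mn a i V) (cv a i)), ContinuousAt F y) →
      Tendsto (fun T : ℝ => Real.sqrt (Real.pi * LL (d T)) * (2 * d T) ^ (-(V ^ 2)) *
        ((1 / T) * ∫ t in (0:ℝ)..T, g (Xt (d T) (sh a (d T)) V t i) * F (tl (sb i (Xt (d T) (sh a (d T)) V t)))))
        atTop (𝓝 (akR V * ((∫ x, Real.exp (-(2 * V * x)) * g x) *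
          ∫ y, F y ∂(multivariateGaussian (mn a i V) (cv a i))))) := by
  have hVV : ∀ j, |(Pi.single i V : Fin m → ℝ) j| ≤ |V| := fun j => by
    by_cases hj : j = i
    · subst hj
      rw [Pi.single_eq_same]
    · rw [Pi.single_eq_of_ne hj, abs_zero]
      exact abs_nonneg _
  obtain ⟨c1, C1, hc1, hC1, hPo⟩ := hP m |V| (abs_nonneg _)
  set r : ℝ → ℝ := fun T => (aV (cc (Pi.single i V)) (cc (Pi.single i V)) (sh a (d T))).re with hrd
  have hrr : ∀ T, c1 ≤ r T ∧ aV (cc (Pi.single i V)) (cc (Pi.single i V)) (sh a (d T)) = r T := by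
    intro T
    obtain ⟨b, hb1, hb2⟩ := (hPo (sh a (d T))).2 (Pi.single i V) hVV
    have hb2' : aV (cc (Pi.single i V)) (cc (Pi.single i V)) (sh a (d T)) = b := hb2
    have e : r T = b := by
      rw [hrd]
      simp only
      rw [hb2', Complex.ofReal_re]
    rw [e]
    exact ⟨hb1, hb2'⟩
  have hshb : ∀ᶠ T : ℝ in atTop, ∀ j, |sh a (d T) j| ≤ T ^ ((1:ℝ) / 2) := by
    rw [eventually_all]
    intro j
    have h1 : Tendsto (fun T : ℝ => |d T * a j|) atTop (𝓝 0) := by
      have := (hd.t0.mul_const (a j)).abs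
      simpa using this
    filter_upwards [h1.eventually_le_const zero_lt_one, eventually_ge_atTop 1] with T h2 h3
    exact h2.trans (Real.one_le_rpow h3 (by norm_num))
  set D : ℝ := V ^ 2 + 1 with hD
  have hD0 : 0 < D := by positivity
  obtain ⟨N, hN⟩ := exists_sets hJ hd (fun T => sh a (d T)) hshb hD0
  have H := LBHnu hZ hC hA hd a i V hN hc1 (fun T => (hrr T).1) (fun T => (hrr T).2)
  have hV0 : aC V ≠ 0 := by
    rw [(aC_akR V).2]
    exact_mod_cast (aC_akR V).1.ne'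
  have hPS : (cv a i).PosSemidef := by
    refine Matrix.PosSemidef.of_dotProduct_mulVec_nonneg ?_ ?_
    · ext j l
      rw [Matrix.conjTranspose_apply, star_trivial]
      unfold cv
      rw [Matrix.of_apply, Matrix.of_apply, ss_symm a l j]
      ring
    · intro x
      rw [star_trivial, quad_cv]
      have h1 := H.le_one (pr_sum i x : pr i x ∈ {η : Fin m → ℝ | ∑ j, η j = 0})
      rw [Ps_zero hA a i V hV0 (pr_sum i x)] at h1
      unfold Ex at h1
      rw [Complex.norm_exp] at h1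
      have h2 := Real.exp_le_one_iff.1 h1
      simp only [Complex.add_re, Complex.neg_re, Complex.mul_re, Complex.ofReal_re, Complex.I_re, mul_zero,
        Complex.ofReal_im, Complex.I_im, mul_one, sub_self, neg_zero, zero_add] at h2
      linarith
  refine ⟨hPS, ?_⟩
  intro g S F M B hg hgc hM hM2 hF hB hFc
  have hM0 : 0 ≤ M := (abs_nonneg _).trans (hM 0)
  have hB0 : 0 ≤ B := (abs_nonneg _).trans (hB 0)
  have hec : Continuous fun x : ℝ => Real.exp (-(2 * V * x)) := by fun_prop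
  have key := lev H (multivariateGaussian (mn a i V) (cv a i)) (fun t => pr_sum i t) (fun t => by
      rw [cf_gauss a i V hPS, Ps_zero hA a i V hV0 (pr_sum i _)]) F hF hB hFc
    (fun x => Real.exp (-(2 * V * x)) * g x) S (hec.measurable.mul hg) (fun x hx => hec.continuousAt.mul (hgc x hx))
    (C := M) (fun x => by
      rw [abs_mul, Real.abs_exp, mul_assoc]
      calc Real.exp (-(2 * V * x)) * (|g x| * (1 + x ^ 2)) ≤ Real.exp (-(2 * V * x)) * (M * Real.exp (2 * V * x)) :=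
            mul_le_mul_of_nonneg_left (hM2 x) (Real.exp_pos _).le
        _ = M * (Real.exp (-(2 * V * x)) * Real.exp (2 * V * x)) := by ring
        _ = M := by rw [← Real.exp_add, neg_add_cancel, Real.exp_zero, mul_one])
  -- the function
  set P : (Fin m → ℝ) → ℝ := fun x => g (x i) * F (tl (sb i x)) with hPd
  have hPm : Measurable P := (hg.comp (measurable_pi_apply i)).mul (hF.comp (tl_meas.comp (sb_meas i)))
  have hPb : ∀ x, |P x| ≤ M * B := fun x => by
    rw [hPd]
    simp only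
    rw [abs_mul]
    exact mul_le_mul (hM _) (hB _) (abs_nonneg _) hM0
  have hsm : ∀ᶠ T : ℝ in atTop, 0 < d T ∧ d T ≤ 1 / 16 ∧ 1 ≤ T := by
    filter_upwards [hd.pos, hd.t0.eventually_le_const (show (0 : ℝ) < 1 / 16 by norm_num),
      eventually_ge_atTop 1] with T a b c
    exact ⟨a, b, c⟩
  -- the limit of r
  have hrl : Tendsto r atTop (𝓝 (akR V)) := by
    have hshl : Tendsto (fun T => sh a (d T)) atTop (𝓝 (fun _ => 0)) := by
      rw [tendsto_pi_nhds]
      intro j
      have := hd.t0.mul_const (a j)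
      rw [zero_mul] at this
      exact this
    have h1 := ((hC m).tendsto (cc (Pi.single i V), cc (Pi.single i V), (fun _ => 0)))
    have h2 : Tendsto (fun T : ℝ => (((cc (Pi.single i V)), (cc (Pi.single i V)), sh a (d T)) :
        (Fin m → ℂ) × (Fin m → ℂ) × (Fin m → ℝ))) atTop (𝓝 (cc (Pi.single i V), cc (Pi.single i V), (fun _ => 0))) :=
      tendsto_const_nhds.prodMk_nhds (tendsto_const_nhds.prodMk_nhds hshl)
    have h3 := h1.comp h2
    have h4 : aV (cc (Pi.single i V)) (cc (Pi.single i V)) (fun _ : Fin m => 0) = aC V := by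
      rw [hA m _ _ rfl]
      congr 1
      show ∑ j, (((Pi.single i V : Fin m → ℝ) j : ℝ) : ℂ) = V
      rw [← Complex.ofReal_sum, sum_single]
    simp only [h4] at h3
    have h5 := (Complex.continuous_re.tendsto _).comp h3
    rw [aC_re] at h5
    exact h5
  have hrl2 : Tendsto (fun T => Real.exp (-(V ^ 2 * r1 (d T) (sh a (d T)) i i))) atTop (𝓝 1) := by
    have h1 := ((r1_lim hZ hd a i i).const_mul (V ^ 2)).neg
    rw [ss_self, mul_zero, neg_zero] at h1
    have h2 := (Real.continuous_exp.tendsto _).comp h1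
    rw [Real.exp_zero] at h2
    exact h2
  -- the rest
  set E : ℝ → ℝ := fun T => Real.sqrt (Real.pi * LL (d T)) * (2 * d T) ^ (-(V ^ 2)) *
    ((1 / T) * ∫ t in Set.Icc 0 T \ N T, P (Xt (d T) (sh a (d T)) V t)) with hEd
  have hE0 : Tendsto E atTop (𝓝 0) := by
    have hb : ∀ᶠ T : ℝ in atTop, ‖E T‖ ≤ M * B * Real.sqrt (2 * d T) := by
      filter_upwards [hN 0, hsm] with T hT hT2
      obtain ⟨h0, h1, hT1⟩ := hT2
      have hT0 : 0 < T := by linarith
      have h2 : ‖∫ t in Set.Icc 0 T \ N T, P (Xt (d T) (sh a (d T)) V t)‖ ≤ M * B * (d T ^ D * T) := by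
        have hfin : volume (Set.Icc 0 T \ N T) < ⊤ := lt_of_le_of_lt hT.vol ENNReal.ofReal_lt_top
        refine (norm_setIntegral_le_of_norm_le_const (C := M * B) hfin fun t _ => hPb _).trans ?_
        refine mul_le_mul_of_nonneg_left ?_ (by positivity)
        have h3 := ENNReal.toReal_mono ENNReal.ofReal_ne_top hT.vol
        rw [ENNReal.toReal_ofReal (by positivity)] at h3
        exact h3
      have h4 := small (V := V) h0 h1
      rw [hEd]
      simp only
      have hp0 : 0 ≤ (2 * d T) ^ (-(V ^ 2)) := Real.rpow_nonneg (by linarith) _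
      rw [norm_mul, norm_mul, norm_mul, Real.norm_of_nonneg (Real.sqrt_nonneg _), Real.norm_of_nonneg hp0,
        Real.norm_of_nonneg (by positivity : (0 : ℝ) ≤ 1 / T)]
      calc Real.sqrt (Real.pi * LL (d T)) * (2 * d T) ^ (-(V ^ 2)) *
            (1 / T * ‖∫ t in Set.Icc 0 T \ N T, P (Xt (d T) (sh a (d T)) V t)‖)
          ≤ Real.sqrt (Real.pi * LL (d T)) * (2 * d T) ^ (-(V ^ 2)) * (1 / T * (M * B * (d T ^ D * T))) := by
            gcongr
        _ = M * B * (Real.sqrt (Real.pi * LL (d T)) * (2 * d T) ^ (-(V ^ 2)) * d T ^ D) := by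
            field_simp
        _ ≤ M * B * Real.sqrt (2 * d T) := mul_le_mul_of_nonneg_left h4 (by positivity)
    have h0 : Tendsto (fun T : ℝ => M * B * Real.sqrt (2 * d T)) atTop (𝓝 0) := by
      have h1 := (Real.continuous_sqrt.tendsto _).comp (hd.t0.const_mul 2)
      rw [mul_zero, Real.sqrt_zero] at h1
      have h2 := h1.const_mul (M * B)
      rwa [mul_zero] at h2
    exact squeeze_zero_norm' hb h0
  have h9 := ((key.mul hrl).mul hrl2).add hE0
  have e9 : (∫ x, Real.exp (-(2 * V * x)) * g x) * (∫ y, F y ∂(multivariateGaussian (mn a i V) (cv a i))) * akR V * 1 + 0 =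
      akR V * ((∫ x, Real.exp (-(2 * V * x)) * g x) * ∫ y, F y ∂(multivariateGaussian (mn a i V) (cv a i))) := by ring
  rw [e9] at h9
  refine h9.congr' ?_
  filter_upwards [hN 0, hsm] with T hT hT2
  obtain ⟨h0, h1, hT1⟩ := hT2
  have hT0 : 0 < T := by linarith
  have hr0 : 0 < r T := lt_of_lt_of_le hc1 (hrr T).1
  have hint : IntegrableOn (fun t => P (Xt (d T) (sh a (d T)) V t)) (Set.Icc 0 T) volume := by
    refine Measure.integrableOn_of_bounded (M := M * B) ?_ ?_ ?_
    · rw [Real.volume_Icc]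
      exact ENNReal.ofReal_ne_top
    · exact (hPm.comp (Xt_meas h0 h1 (sh a (d T)) V)).aestronglyMeasurable
    · exact Eventually.of_forall fun t => hPb _
  have hsplit : ∫ t in (0 : ℝ)..T, P (Xt (d T) (sh a (d T)) V t) =
      (∫ t in N T, P (Xt (d T) (sh a (d T)) V t)) + ∫ t in Set.Icc 0 T \ N T, P (Xt (d T) (sh a (d T)) V t) := by
    rw [intervalIntegral.integral_of_le hT0.le, ← integral_Icc_eq_integral_Ioc]
    have h2 := setIntegral_union (μ := volume) (f := fun t => P (Xt (d T) (sh a (d T)) V t))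
      (Set.disjoint_sdiff_right (s := N T) (t := Set.Icc 0 T))
      (measurableSet_Icc.diff hT.meas) (hint.mono_set hT.sub) (hint.mono_set Set.sdiff_subset)
    rw [Set.union_sdiff_cancel hT.sub] at h2
    exact h2
  have h3 := int_nuL h0 h1 hr0 hT0 (sh a (d T)) i V hT.meas hT.nz hPm
  have e5 : (∫ x, Real.exp (-(2 * V * x i)) * g (x i) * F (tl (sb i x)) ∂(nuL (d T) (r T) T (sh a (d T)) i V (N T))) =
      ∫ x, Real.exp (-(2 * V * x i)) * P x ∂(nuL (d T) (r T) T (sh a (d T)) i V (N T)) := by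
    refine integral_congr_ae (Eventually.of_forall fun x => ?_)
    simp only [hPd]
    ring
  rw [hEd]
  simp only
  rw [e5, h3]
  show _ = Real.sqrt (Real.pi * LL (d T)) * (2 * d T) ^ (-(V ^ 2)) *
    ((1 / T) * ∫ t in (0:ℝ)..T, P (Xt (d T) (sh a (d T)) V t))
  rw [hsplit, Real.exp_neg]
  have hex := Real.exp_pos (V ^ 2 * r1 (d T) (sh a (d T)) i i)
  field_simp

end Run7.h42.LB
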