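import Pool.Agent.Run7.h42.LB.Fin2

set_option autoImplicit false

/-!
# The landscape of zeta at an exact level (helper42): conditional laws
-/

namespace Run7.h42.LB

open Finset Filter MeasureTheory Topology Complex ProbabilityTheory
open Pool.Agent.N748.MG Pool.Agent.N748.MJ
open Pool.Agent.N748.MJ.SM (cc)
open Run7.h42.LP

variable {m : ℕ}

/-- the integral over a set -/
lemma int_set {T : ℝ} (hT : 0 ≤ T) {f : ℝ → ℝ} (hf : Measurable f) (V b : ℝ) (G : ℝ → ℝ) :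
    ∫ t in (0:ℝ)..T, i1 V b (f t) * G t = ∫ t in {t : ℝ | 0 ≤ t ∧ t ≤ T ∧ 0 < V * (f t + b)}, G t := by
  set A : Set ℝ := {t | 0 < V * (f t + b)} with hA
  have hAm : MeasurableSet A := measurableSet_lt measurable_const (measurable_const.mul (hf.add_const _))
  have e1 : (fun t => i1 V b (f t) * G t) = A.indicator G := by
    funext t
    unfold i1 Set.indicator
    by_cases hh : 0 < V * (f t + b)
    · rw [if_pos hh, if_pos (by exact hh), one_mul]
    · rw [if_neg hh, if_neg (by exact hh), zero_mul]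
  rw [e1, intervalIntegral.integral_of_le hT, ← integral_Icc_eq_integral_Ioc, setIntegral_indicator hAm]
  congr 2
  ext t
  simp only [hA, Set.mem_inter_iff, Set.mem_Icc, Set.mem_ofPred_eq]
  tauto

/-- the conditional law -/
theorem cond (hJ : S_JM) (hP : S_POSV) (hZ : S_LZB) (hC : S_CONV) (hA : S_AV0) {d : ℝ → ℝ} (hd : Ad d)
    (a : Fin m → ℝ) (i : Fin m) {V : ℝ} (hV : V ≠ 0) (b : ℝ) (F : EuclideanSpace ℝ (Fin m) → ℝ) (B : ℝ)
    (hF : Measurable F) (hB : ∀ y, |F y| ≤ B)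
    (hFc : ∀ᵐ y ∂(multivariateGaussian (mn a i V) (cv a i)), ContinuousAt F y) :
    Tendsto (fun T : ℝ => (∫ t in {t : ℝ | 0 ≤ t ∧ t ≤ T ∧ 0 < V * (Xt (d T) (sh a (d T)) V t i + b)},
        F (tl (sb i (Xt (d T) (sh a (d T)) V t)))) /
      (volume {t : ℝ | 0 ≤ t ∧ t ≤ T ∧ 0 < V * Xt (d T) (sh a (d T)) V t i}).toReal)
      atTop (𝓝 (Real.exp (2 * V * b) * ∫ y, F y ∂(multivariateGaussian (mn a i V) (cv a i)))) := by
  have hl := (landscape hJ hP hZ hC hA hd a i V).2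
  have hI : ∀ b : ℝ, ∃ M : ℝ, (∀ x, |i1 V b x| ≤ M) ∧ ∀ x, |i1 V b x| * (1 + x ^ 2) ≤ M * Real.exp (2 * V * x) := by
    intro b
    obtain ⟨M, hM0, hM⟩ := i1_bd hV b
    refine ⟨max M 1, fun x => ?_, fun x => ?_⟩
    · rw [abs_of_nonneg (i1_nonneg _ _ _)]
      exact (i1_le _ _ _).trans (le_max_right _ _)
    · rw [abs_of_nonneg (i1_nonneg _ _ _)]
      exact (hM x).trans (mul_le_mul_of_nonneg_right (le_max_left _ _) (Real.exp_pos _).le)
  obtain ⟨M1, hM1, hM1'⟩ := hI b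
  obtain ⟨M2, hM2, hM2'⟩ := hI 0
  have n1 := hl (i1 V b) {-b} F M1 B (i1_meas _ _) (fun x hx => i1_cont hV (by simpa using hx)) hM1 hM1' hF hB hFc
  have n2 := hl (i1 V 0) {-0} (fun _ => 1) M2 1 (i1_meas _ _) (fun x hx => i1_cont hV (by simpa using hx)) hM2 hM2'
    measurable_const (fun _ => by simp) (Eventually.of_forall fun _ => continuousAt_const)
  rw [i1_int hV b] at n1
  rw [i1_int hV 0] at n2
  have hak := (aC_akR V).1
  have hVV := abs_pos.2 hV
  have e2 : akR V * (Real.exp (2 * V * 0) / (2 * |V|) *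
      ∫ _y, (1:ℝ) ∂(multivariateGaussian (mn a i V) (cv a i))) = akR V / (2 * |V|) := by
    rw [mul_zero, Real.exp_zero, integral_const, probReal_univ, smul_eq_mul]
    ring
  rw [e2] at n2
  have hne : akR V / (2 * |V|) ≠ 0 := by positivity
  have h3 := n1.div n2 hne
  have e3 : akR V * (Real.exp (2 * V * b) / (2 * |V|) * ∫ y, F y ∂(multivariateGaussian (mn a i V) (cv a i))) /
      (akR V / (2 * |V|)) = Real.exp (2 * V * b) * ∫ y, F y ∂(multivariateGaussian (mn a i V) (cv a i)) := by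
    field_simp
  rw [e3] at h3
  refine h3.congr' ?_
  have hsm : ∀ᶠ T : ℝ in atTop, 0 < d T ∧ d T ≤ 1 / 16 ∧ 1 ≤ T := by
    filter_upwards [hd.pos, hd.t0.eventually_le_const (show (0 : ℝ) < 1 / 16 by norm_num),
      eventually_ge_atTop 1] with T a b c
    exact ⟨a, b, c⟩
  filter_upwards [hsm, (LL_lim hd).eventually_gt_atTop 0] with T hT hLT
  obtain ⟨h0, h1, hT1⟩ := hT
  have hT0 : 0 < T := by linarith
  have hm1 : Measurable fun t => Xt (d T) (sh a (d T)) V t i :=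
    (measurable_pi_apply i).comp (Xt_meas h0 h1 (sh a (d T)) V)
  simp only [Pi.div_apply]
  rw [int_set hT0.le hm1 V b (fun t => F (tl (sb i (Xt (d T) (sh a (d T)) V t)))),
    int_set hT0.le hm1 V 0 (fun _ => (1:ℝ))]
  have e4 : ∫ _t in {t : ℝ | 0 ≤ t ∧ t ≤ T ∧ 0 < V * (Xt (d T) (sh a (d T)) V t i + 0)}, (1:ℝ) =
      (volume {t : ℝ | 0 ≤ t ∧ t ≤ T ∧ 0 < V * Xt (d T) (sh a (d T)) V t i}).toReal := by
    rw [setIntegral_const, smul_eq_mul, mul_one, measureReal_def]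
    simp only [add_zero]
  rw [e4]
  have hp1 : 0 < Real.sqrt (Real.pi * LL (d T)) := Real.sqrt_pos.2 (mul_pos Real.pi_pos hLT)
  have hp2 : 0 < (2 * d T) ^ (-(V ^ 2)) := Real.rpow_pos_of_pos (by linarith) _
  have hp3 : 0 < 1 / T := by positivity
  rw [mul_div_mul_left _ _ (mul_pos hp1 hp2).ne', mul_div_mul_left _ _ hp3.ne']

end Run7.h42.LB
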