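import Pool.Agent.Run7.h42.LB.Abs

set_option autoImplicit false

/-!
# The landscape of zeta at an exact level (helper42): the limit of the marks
-/

namespace Run7.h42.LB

open Finset Filter MeasureTheory Topology Complex
open Run7.h42.LP (cf ee ee_norm ee_add ee_cont2 cf_norm tl tl_meas tl_cf wdi)
open Pool.Agent.N748.MJ.LLT2 (fm_ae fm_tendstoE)

variable {m : ℕ}

/-- the differences -/
def sb (i : Fin m) (x : Fin m → ℝ) : Fin m → ℝ := fun j => x j - x i

/-- the adjoint map -/
noncomputable def pr (i : Fin m) (t : Fin m → ℝ) : Fin m → ℝ := t - Pi.single i (∑ j, t j)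

lemma sb_meas (i : Fin m) : Measurable (sb i) :=
  measurable_pi_lambda _ fun j => (measurable_pi_apply j).sub (measurable_pi_apply i)

lemma ee_sb (i : Fin m) (t x : Fin m → ℝ) : ee t (sb i x) = ee (pr i t) x := by
  unfold ee
  congr 3
  unfold sb pr
  have e1 : ∑ j, (t - Pi.single i (∑ j, t j) : Fin m → ℝ) j * x j = ∑ j, t j * x j - (∑ j, t j) * x i := by
    simp only [Pi.sub_apply, sub_mul, Finset.sum_sub_distrib]
    congr 1
    rw [Finset.sum_eq_single i]
    · rw [Pi.single_eq_same]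
    · intro j _ hj
      rw [Pi.single_eq_of_ne hj, zero_mul]
    · intro h
      exact absurd (Finset.mem_univ i) h
  rw [e1]
  simp only [mul_sub, Finset.sum_sub_distrib, Finset.sum_mul]

lemma cf_sb (i : Fin m) (κ : Measure (Fin m → ℝ)) (t : Fin m → ℝ) : cf (κ.map (sb i)) t = cf κ (pr i t) := by
  unfold cf
  rw [integral_map (sb_meas i).aemeasurable (ee_cont2 t).aestronglyMeasurable]
  exact integral_congr_ae (Eventually.of_forall fun x => ee_sb i t x)

variable {i : Fin m} {Z : Set (Fin m → ℝ)} {ν : ℝ → Measure (Fin m → ℝ)} {Λ : ℝ → ℝ} {Ψ : (Fin m → ℝ) → ℝ → ℂ}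

/-- the theorem for nonnegative functions -/
theorem lev0 (H : LBH i Z ν Λ Ψ) (ρ : Measure (EuclideanSpace ℝ (Fin m))) [IsProbabilityMeasure ρ]
    (hZ : ∀ t : Fin m → ℝ, pr i t ∈ Z) (hρ : ∀ t : EuclideanSpace ℝ (Fin m), charFun ρ t = Ψ (pr i (WithLp.ofLp t)) 0)
    (F : EuclideanSpace ℝ (Fin m) → ℝ) (hF : Measurable F) {B : ℝ} (hB : ∀ y, |F y| ≤ B)
    (hFc : ∀ᵐ y ∂ρ, ContinuousAt F y)
    (h : ℝ → ℝ) (S : Finset ℝ) (hh : Measurable h) (hhc : ∀ x, x ∉ S → ContinuousAt h x) {C : ℝ}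
    (hC : ∀ x, |h x| * (1 + x ^ 2) ≤ C) (h0 : ∀ x, 0 ≤ h x) :
    Tendsto (fun T => Real.sqrt (Real.pi * Λ T) * ∫ x, h (x i) * F (tl (sb i x)) ∂(ν T)) atTop
      (𝓝 ((∫ x, h x) * ∫ y, F y ∂ρ)) := by
  have hB0 : 0 ≤ B := (abs_nonneg _).trans (hB 0)
  have hI0 : 0 ≤ ∫ x, h x := integral_nonneg h0
  rcases hI0.eq_or_lt with hI | hI
  · -- no mass
    rw [← hI, zero_mul]
    have h1 := wgt H H.Z0 0 h S hh hhc hC
    rw [← hI, mul_zero] at h1
    have h2 := h1.mul_const (B / 3)
    rw [zero_mul] at h2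
    refine squeeze_zero_norm' ?_ h2
    filter_upwards [H.fin] with T hT
    rw [norm_mul, Real.norm_of_nonneg (Real.sqrt_nonneg _), mul_assoc]
    refine mul_le_mul_of_nonneg_left ?_ (Real.sqrt_nonneg _)
    have hw0 : ∀ x : Fin m → ℝ, wt (0 : Fin m → ℝ) 0 x = 3 := fun x => by
      unfold wt
      simp
      norm_num
    have i4 := h_int (i := i) hh hC (ν T) (measurable_const (a := (1:ℝ))) (B := 1) (fun x => by simp)
    have e1 : (∫ x, wt (0 : Fin m → ℝ) 0 x * h (x i) ∂(ν T)) * (B / 3) = ∫ x, B * (1 * h (x i)) ∂(ν T) := by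
      rw [← integral_mul_const]
      refine integral_congr_ae (Eventually.of_forall fun x => ?_)
      simp only
      rw [hw0]
      ring
    rw [e1]
    refine norm_integral_le_of_norm_le (i4.const_mul B) (Eventually.of_forall fun x => ?_)
    rw [norm_mul, Real.norm_of_nonneg (h0 _), Real.norm_eq_abs, one_mul, mul_comm B]
    exact mul_le_mul_of_nonneg_left (hB _) (h0 _)
  · -- positive mass
    refine tendsto_of_seq_tendsto fun u hu => ?_
    obtain ⟨N, hN⟩ := eventually_atTop.mp (hu.eventually H.fin)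
    rw [← tendsto_add_atTop_iff_nat N]
    have hf : ∀ n, IsFiniteMeasure (ν (u (n + N))) := fun n => hN (n + N) (Nat.le_add_left _ _)
    have hv : Tendsto (fun n => u (n + N)) atTop atTop := (tendsto_add_atTop_iff_nat N).mpr hu
    set A : ℕ → ℝ := fun n => Real.sqrt (Real.pi * Λ (u (n + N))) with hA
    have hA0 : ∀ n, 0 ≤ A n := fun n => Real.sqrt_nonneg _
    have hint : ∀ n, Integrable (fun x : Fin m → ℝ => A n * h (x i)) (ν (u (n + N))) := by
      intro n
      have := hf n
      have i4 := h_int (i := i) hh hC (ν (u (n + N))) (measurable_const (a := (1:ℝ))) (B := 1) (fun x => by simp)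
      simpa using i4.const_mul (A n)
    have hDm : ∀ n, Measurable fun x : Fin m → ℝ => A n * h (x i) := fun n =>
      (hh.comp (measurable_pi_apply i)).const_mul _
    let μ : ℕ → FiniteMeasure (Fin m → ℝ) := fun n =>
      ⟨(ν (u (n + N))).withDensity fun x => ENNReal.ofReal (A n * h (x i)), isFiniteMeasure_withDensity_ofReal (hint n).2⟩
    have hμ : ∀ (n : ℕ) {G : Type} [NormedAddCommGroup G] [NormedSpace ℝ G] (f : (Fin m → ℝ) → G),
        ∫ x, f x ∂(μ n : Measure (Fin m → ℝ)) = ∫ x, (A n * h (x i)) • f x ∂(ν (u (n + N))) := by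
      intro n G _ _ f
      exact wdi (ν (u (n + N))) (D := fun x => A n * h (x i)) (hDm n) (fun x => mul_nonneg (hA0 n) (h0 _)) f
    let κ : ℕ → FiniteMeasure (EuclideanSpace ℝ (Fin m)) := fun n => ((μ n).map (sb i)).map tl
    let μ' : FiniteMeasure (EuclideanSpace ℝ (Fin m)) := ⟨ENNReal.ofReal (∫ x, h x) • ρ, by
      refine ⟨?_⟩
      rw [Measure.smul_apply, smul_eq_mul, measure_univ, mul_one]
      exact ENNReal.ofReal_lt_top⟩
    have hμ'0 : μ' ≠ 0 := by
      intro h1
      have h2 : (μ' : Measure (EuclideanSpace ℝ (Fin m))) Set.univ = 0 := by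
        rw [h1]
        simp
      have h3 : (μ' : Measure (EuclideanSpace ℝ (Fin m))) Set.univ = ENNReal.ofReal (∫ x, h x) := by
        show (ENNReal.ofReal (∫ x, h x) • ρ) Set.univ = _
        rw [Measure.smul_apply, smul_eq_mul, measure_univ, mul_one]
      rw [h3, ENNReal.ofReal_eq_zero] at h2
      linarith
    have hμ'i : ∀ {G : Type} [NormedAddCommGroup G] [NormedSpace ℝ G] (f : EuclideanSpace ℝ (Fin m) → G),
        ∫ y, f y ∂(μ' : Measure (EuclideanSpace ℝ (Fin m))) = (∫ x, h x) • ∫ y, f y ∂ρ := by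
      intro G _ _ f
      show ∫ y, f y ∂(ENNReal.ofReal (∫ x, h x) • ρ) = _
      rw [integral_smul_measure, ENNReal.toReal_ofReal hI.le]
    have hw : Tendsto κ atTop (𝓝 μ') := by
      refine fm_tendstoE _ _ hμ'0 fun t => ?_
      have e1 : ∀ n, charFun (κ n : Measure (EuclideanSpace ℝ (Fin m))) t =
          ((A n : ℝ) : ℂ) * ∫ x, ((h (x i) : ℝ) : ℂ) * ee (pr i (WithLp.ofLp t)) x ∂(ν (u (n + N))) := by
        intro n
        show charFun ((((μ n).map (sb i)).map tl : FiniteMeasure (EuclideanSpace ℝ (Fin m))) :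
          Measure (EuclideanSpace ℝ (Fin m))) t = _
        rw [FiniteMeasure.toMeasure_map, FiniteMeasure.toMeasure_map, tl_cf, cf_sb, cf, hμ, ← integral_const_mul]
        refine integral_congr_ae (Eventually.of_forall fun x => ?_)
        simp only
        rw [real_smul]
        push_cast
        ring
      have e2 : charFun (μ' : Measure (EuclideanSpace ℝ (Fin m))) t =
          Ψ (pr i (WithLp.ofLp t)) 0 * ((∫ x, h x : ℝ) : ℂ) := by
        rw [← hρ t, charFun_apply, charFun_apply, hμ'i, real_smul, mul_comm]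
      simp_rw [e1, e2]
      exact (chr H (hZ _) h S hh hhc hC).comp hv
    have h6 := fm_ae κ μ' hw hμ'0 F hF B (fun y => hB y) (by
      show ∀ᵐ y ∂(ENNReal.ofReal (∫ x, h x) • ρ), ContinuousAt F y
      exact Measure.ae_smul_measure hFc _)
    rw [hμ'i, smul_eq_mul] at h6
    refine h6.congr fun n => ?_
    show ∫ y, F y ∂((((μ n).map (sb i)).map tl : FiniteMeasure (EuclideanSpace ℝ (Fin m))) :
          Measure (EuclideanSpace ℝ (Fin m))) =
        Real.sqrt (Real.pi * Λ (u (n + N))) * ∫ x, h (x i) * F (tl (sb i x)) ∂(ν (u (n + N)))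
    rw [FiniteMeasure.toMeasure_map, FiniteMeasure.toMeasure_map,
      integral_map tl_meas.aemeasurable hF.aestronglyMeasurable,
      integral_map (f := fun x : Fin m → ℝ => F (tl x)) (sb_meas i).aemeasurable (hF.comp tl_meas).aestronglyMeasurable,
      hμ, ← integral_const_mul]
    refine integral_congr_ae (Eventually.of_forall fun x => ?_)
    simp only [smul_eq_mul, hA]
    ring

/-- the theorem -/
theorem lev (H : LBH i Z ν Λ Ψ) (ρ : Measure (EuclideanSpace ℝ (Fin m))) [IsProbabilityMeasure ρ]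
    (hZ : ∀ t : Fin m → ℝ, pr i t ∈ Z) (hρ : ∀ t : EuclideanSpace ℝ (Fin m), charFun ρ t = Ψ (pr i (WithLp.ofLp t)) 0)
    (F : EuclideanSpace ℝ (Fin m) → ℝ) (hF : Measurable F) {B : ℝ} (hB : ∀ y, |F y| ≤ B)
    (hFc : ∀ᵐ y ∂ρ, ContinuousAt F y)
    (h : ℝ → ℝ) (S : Finset ℝ) (hh : Measurable h) (hhc : ∀ x, x ∉ S → ContinuousAt h x) {C : ℝ}
    (hC : ∀ x, |h x| * (1 + x ^ 2) ≤ C) :
    Tendsto (fun T => Real.sqrt (Real.pi * Λ T) * ∫ x, h (x i) * F (tl (sb i x)) ∂(ν T)) atTop
      (𝓝 ((∫ x, h x) * ∫ y, F y ∂ρ)) := by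
  have a1 : ∀ x, |max (h x) 0| * (1 + x ^ 2) ≤ C := fun x => by
    refine le_trans (mul_le_mul_of_nonneg_right ?_ (by positivity)) (hC x)
    rw [abs_of_nonneg (le_max_right _ _)]
    exact max_le (le_abs_self _) (abs_nonneg _)
  have a2 : ∀ x, |max (-(h x)) 0| * (1 + x ^ 2) ≤ C := fun x => by
    refine le_trans (mul_le_mul_of_nonneg_right ?_ (by positivity)) (hC x)
    rw [abs_of_nonneg (le_max_right _ _)]
    exact max_le (neg_le_abs _) (abs_nonneg _)
  have m1 : Measurable fun x => max (h x) 0 := hh.max measurable_const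
  have m2 : Measurable fun x => max (-(h x)) 0 := hh.neg.max measurable_const
  have b1 := lev0 H ρ hZ hρ F hF hB hFc (fun x => max (h x) 0) S m1
    (fun x hx => (hhc x hx).max continuousAt_const) a1 (fun x => le_max_right _ _)
  have b2 := lev0 H ρ hZ hρ F hF hB hFc (fun x => max (-(h x)) 0) S m2
    (fun x hx => (hhc x hx).neg.max continuousAt_const) a2 (fun x => le_max_right _ _)
  have hd : ∀ x, h x = max (h x) 0 - max (-(h x)) 0 := fun x => by
    rcases le_total 0 (h x) with h1 | h1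
    · rw [max_eq_left h1, max_eq_right (by linarith)]
      ring
    · rw [max_eq_right h1, max_eq_left (by linarith)]
      ring
  have hvi : ∀ g : ℝ → ℝ, Measurable g → (∀ x, |g x| * (1 + x ^ 2) ≤ C) → Integrable g := by
    intro g hg hgC
    refine Integrable.mono' (integrable_inv_one_add_sq.const_mul C) hg.aestronglyMeasurable
      (Eventually.of_forall fun x => ?_)
    rw [Real.norm_eq_abs, ← div_eq_mul_inv, le_div_iff₀ (by positivity)]
    exact hgC x
  have b3 := b1.sub b2
  have e1 : (∫ x, max (h x) 0) * (∫ y, F y ∂ρ) - (∫ x, max (-(h x)) 0) * (∫ y, F y ∂ρ) = (∫ x, h x) * ∫ y, F y ∂ρ := by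
    rw [← sub_mul, ← integral_sub (hvi _ m1 a1) (hvi _ m2 a2)]
    congr 1
    exact integral_congr_ae (Eventually.of_forall fun x => (hd x).symm)
  rw [e1] at b3
  refine b3.congr' ?_
  filter_upwards [H.fin] with T hT
  rw [← mul_sub]
  congr 1
  have hFm : Measurable fun x : Fin m → ℝ => F (tl (sb i x)) := hF.comp (tl_meas.comp (sb_meas i))
  have i1 := h_int (i := i) m1 a1 (ν T) hFm (B := B) (fun x => hB _)
  have i2 := h_int (i := i) m2 a2 (ν T) hFm (B := B) (fun x => hB _)
  have i1' : Integrable (fun x : Fin m → ℝ => max (h (x i)) 0 * F (tl (sb i x))) (ν T) :=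
    i1.congr (Eventually.of_forall fun x => mul_comm _ _)
  have i2' : Integrable (fun x : Fin m → ℝ => max (-(h (x i))) 0 * F (tl (sb i x))) (ν T) :=
    i2.congr (Eventually.of_forall fun x => mul_comm _ _)
  rw [← integral_sub i1' i2']
  refine integral_congr_ae (Eventually.of_forall fun x => ?_)
  simp only
  rw [← sub_mul, ← hd]

end Run7.h42.LB
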